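import Pool.Agent.Lib.MP_ae0f86_nt.Density

/-!
# MP_ae0f86_nt : definitions for the transcendence criterion
-/

open CategoryTheory CategoryTheory.Limits Opposite MonoidalCategory

universe v u

namespace Pool.Agent.Lib.MP_ae0f86_nt

section Defs

variable {A : Type u} [Category.{v} A] [Abelian A] [MonoidalCategory A] [RigidCategory A]

/-- `W` is orthogonal to `⟨M₀⟩`: all morphisms between `W` and the objects of `⟨M₀⟩` are zero. -/
def Orthogonal (M₀ W : A) : Prop :=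
  ∀ N : A, Gen M₀ N → (∀ f : N ⟶ W, f = 0) ∧ ∀ f : W ⟶ N, f = 0

/-- `⟨M⟩` splits over `⟨M₀⟩`: each object of `⟨M⟩` is the direct sum of an object of `⟨M₀⟩` and of
an object which is orthogonal to `⟨M₀⟩`. -/
def SplitsOver (M M₀ : A) : Prop :=
  ∀ N : A, Gen M N → ∃ N₀ N₁ : A, Gen M₀ N₀ ∧ Orthogonal M₀ N₁ ∧ Nonempty (N ≅ N₀ ⊞ N₁)

/-- The category `⟨M⟩` is semisimple: each subobject `i : N' ⟶ N` of an object `N` of `⟨M⟩` is a
direct summand. -/
def SemisimpleGen (M : A) : Prop :=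
  ∀ (N N' : A) (i : N' ⟶ N), Mono i → Gen M N → ∃ r : N ⟶ N', i ≫ r = 𝟙 N'

end Defs

end Pool.Agent.Lib.MP_ae0f86_nt
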