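import Pool.Agent.Lib.MP_ae0f86_nt.StmD2

/-!
# MP_ae0f86_nt : the transcendence criterion, commutative algebra

Let `R` be a finite product of domains of finite type over an algebraically closed field, let
`j : R' → R` be an injective homomorphism and let `Q` be an `R'`-submodule of `R` which is a
complement of `R'` and which is stable under automorphisms which act transitively on the points.
The theorem says when a homomorphism from `R` to a field is injective on one factor of `R`.
-/

set_option autoImplicit false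

universe w v u

namespace Pool.Agent.Lib.MP_ae0f86_nt

section Ring

variable {K : Type} [Field K] {R R' : Type w} [CommRing R] [CommRing R'] [Algebra K R]
  [Algebra K R'] {r r' : ℕ} {e : Fin r → R} {e' : Fin r' → R'}

theorem Dec.dich (he : Dec R r e) (i : Fin r) {f : R} (hf : f * f = f) :
    e i * f = 0 ∨ e i * f = e i := by
  rcases he.dom i f (1 - f) (by rw [mul_sub, mul_one, hf, sub_self, mul_zero]) with h | h
  · exact Or.inl h
  · right
    rw [mul_sub, mul_one, sub_eq_zero] at h
    exact h.symm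

theorem Dec.exists_ne (he : Dec R r e) {f : R} (hf : f ≠ 0) : ∃ i, e i * f ≠ 0 := by
  by_contra h
  push Not at h
  apply hf
  rw [← one_mul f, ← he.sum, Finset.sum_mul]
  exact Finset.sum_eq_zero fun i _ => h i

/-- The number of factors is at least the number of orthogonal idempotents. -/
theorem Dec.le_of_orth (he : Dec R r e) {n : ℕ} (f : Fin n → R) (h0 : ∀ l, f l ≠ 0)
    (h1 : ∀ l, f l * f l = f l) (h2 : ∀ l m, l ≠ m → f l * f m = 0) :
    ∃ k : Fin n → Fin r, Function.Injective k ∧ ∀ l, e (k l) * f l = e (k l) := by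
  choose k hk using fun l => he.exists_ne (h0 l)
  have hk' : ∀ l, e (k l) * f l = e (k l) := fun l => (he.dich (k l) (h1 l)).resolve_left (hk l)
  refine ⟨k, fun l m hlm => ?_, hk'⟩
  by_contra hne
  apply he.ne (k l)
  calc e (k l) = e (k l) * f l := (hk' l).symm
    _ = e (k m) * f l := by rw [hlm]
    _ = (e (k m) * f m) * f l := by rw [hk' m]
    _ = e (k m) * (f l * f m) := by ring
    _ = 0 := by rw [h2 l m hne, mul_zero]

theorem Dec.eq_zero_of_pow (he : Dec R r e) {b : R} {n : ℕ} (hb : b ^ n = 0) : b = 0 := by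
  have h0 : ∀ i, e i * b = 0 := by
    intro i
    have h1 : ∀ m : ℕ, e i * b ^ m = 0 → e i * b = 0 := by
      intro m
      induction m with
      | zero =>
        intro h
        rw [pow_zero, mul_one] at h
        exact absurd h (he.ne i)
      | succ m ihm =>
        intro h
        rw [pow_succ] at h
        rcases he.dom i _ _ h with h' | h'
        · exact ihm h'
        · exact h'
    exact h1 n (by rw [hb, mul_zero])
  rw [← one_mul b, ← he.sum, Finset.sum_mul]
  exact Finset.sum_eq_zero fun i _ => h0 i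

/-- An element of a product of domains of finite type which vanishes at all points is zero. -/
theorem Dec.eq_zero_of_points [IsAlgClosed K] [Algebra.FiniteType K R] (h1 : S_nullst.{w})
    (he : Dec R r e) {b : R} (hb : ∀ y : R →ₐ[K] K, y b = 0) : b = 0 := by
  have : IsJacobsonRing R := isJacobsonRing_of_finiteType (A := K)
  have hmem : b ∈ (⊥ : Ideal R).jacobson := by
    rw [Ideal.jacobson, Submodule.mem_sInf]
    rintro m ⟨-, hm⟩
    have := hm
    obtain ⟨y, hy⟩ := h1 K R m
    rw [← hy, RingHom.mem_ker]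
    exact hb y
  rw [← Ideal.radical_eq_jacobson] at hmem
  obtain ⟨n, hn⟩ := hmem
  exact he.eq_zero_of_pow hn

/-- A subspace which does not contain `1` and is stable under automorphisms which act transitively
on the points contains no nonzero ideal. -/
theorem ring_core [IsAlgClosed K] [Algebra.FiniteType K R] (h1 : S_nullst.{w})
    (he : Dec R r e) (Q : Submodule K R) (hQ1 : (1 : R) ∉ Q)
    (htrans : ∀ x y : R →ₐ[K] K, ∃ τ : R ≃ₐ[K] R, (∀ a, x (τ a) = y a) ∧ ∀ q ∈ Q, τ q ∈ Q)
    (x : R) (hx : ∀ s, s * x ∈ Q) : x = 0 := by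
  let J : Ideal R := Ideal.span {y | ∃ τ : R ≃ₐ[K] R, (∀ q ∈ Q, τ q ∈ Q) ∧ y = τ x}
  have hJ' : ∀ y ∈ J, ∀ s : R, s * y ∈ Q := by
    intro y hy
    refine Submodule.span_induction (p := fun y _ => ∀ s : R, s * y ∈ Q) ?_ ?_ ?_ ?_ hy
    · rintro _ ⟨τ, hτ, rfl⟩ s
      have h2 : s * τ x = τ (τ.symm s * x) := by
        rw [map_mul, AlgEquiv.apply_symm_apply]
      rw [h2]
      exact hτ _ (hx _)
    · intro s
      rw [mul_zero]
      exact Q.zero_mem
    · intro a b _ _ ha hb s
      rw [mul_add]
      exact Q.add_mem (ha s) (hb s)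
    · intro a x _ hx s
      rw [smul_eq_mul, ← mul_assoc]
      exact hx _
  have hJne : J ≠ ⊤ := by
    intro h
    apply hQ1
    have h2 := hJ' 1 (by rw [h]; exact Submodule.mem_top) 1
    rwa [one_mul] at h2
  obtain ⟨m, hm, hJm⟩ := Ideal.exists_le_maximal J hJne
  obtain ⟨x0, hx0⟩ := h1 K R m
  refine he.eq_zero_of_points (K := K) h1 fun y => ?_
  obtain ⟨τ, hτ, hτQ⟩ := htrans x0 y
  rw [← hτ]
  have h2 : τ x ∈ m := hJm (Ideal.subset_span ⟨τ, hτQ, rfl⟩)
  rw [← hx0] at h2
  exact h2

/-- Comparison of the numbers of factors of `R` and `R'`. -/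
theorem ringcount (j : R' →ₐ[K] R) (hj : Function.Injective j) (he : Dec R r e)
    (he' : Dec R' r' e')
    (hauto : ∀ i l, ∃ (τ : R ≃ₐ[K] R) (τ' : R' ≃ₐ[K] R'), τ (e i) = e l ∧
      ∀ a, τ (j a) = j (τ' a))
    {L : Type} [Field L] [Algebra K L] (ev : R →ₐ[K] L) (i0 : Fin r) (k0 : Fin r')
    (hi : ev (e i0) = 1) (hk : ev (j (e' k0)) = 1) :
    (r ≤ r' ↔ j (e' k0) = e i0) := by
  have hf : ∀ k, j (e' k) * j (e' k) = j (e' k) := fun k => by rw [← map_mul, he'.idem]
  have hf0 : ∀ k, j (e' k) ≠ 0 := fun k h => he'.ne k (hj (by rw [h, map_zero]))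
  have hfo : ∀ k l, k ≠ l → j (e' k) * j (e' l) = 0 := fun k l h => by
    rw [← map_mul, he'.orth k l h, map_zero]
  obtain ⟨i, hinj, hik⟩ := he.le_of_orth (fun k => j (e' k)) hf0 hf hfo
  constructor
  · intro hr
    have hcard : r' ≤ r := by simpa using Fintype.card_le_of_injective i hinj
    have hrr : r = r' := le_antisymm hr hcard
    have hbij : Function.Bijective i :=
      (Fintype.bijective_iff_injective_and_card i).2 ⟨hinj, by simp [hrr]⟩
    have h1 : ∀ l, l ≠ i k0 → e l * j (e' k0) = 0 := by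
      intro l hl
      obtain ⟨k, rfl⟩ := hbij.2 l
      have hkk : k ≠ k0 := fun h => hl (by rw [h])
      rw [← hik k, mul_assoc, hfo k k0 hkk, mul_zero]
    have h2 : j (e' k0) = e (i k0) := by
      rw [← one_mul (j (e' k0)), ← he.sum, Finset.sum_mul,
        Finset.sum_eq_single (i k0) (fun l _ hl => h1 l hl)
          (fun h => absurd (Finset.mem_univ _) h)]
      exact hik k0
    rw [h2]
    rw [h2] at hk
    by_contra hne
    have h3 : i k0 ≠ i0 := fun h => hne (by rw [h])
    have h4 := congrArg ev (he.orth _ _ h3)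
    rw [map_mul, hk, hi, map_zero, mul_one] at h4
    exact one_ne_zero h4
  · intro h
    choose τ τ' h1 h2 using fun l => hauto i0 l
    have h3 : ∀ l, j (τ' l (e' k0)) = e l := fun l => by rw [← h2, h, h1]
    obtain ⟨k, hkinj, -⟩ := he'.le_of_orth (fun l => τ' l (e' k0))
      (fun l hl => he.ne l (by rw [← h3 l, hl, map_zero]))
      (fun l => by rw [← map_mul, he'.idem])
      (fun l m hlm => hj (by rw [map_mul, h3, h3, he.orth l m hlm, map_zero]))
    simpa using Fintype.card_le_of_injective k hkinj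

/-- The criterion. -/
theorem ringcrit [IsAlgClosed K] [Algebra.FiniteType K R] (h1 : S_nullst.{w})
    (habs : S_abssub.{w}) (j : R' →ₐ[K] R)
    (hj : Function.Injective j) (he : Dec R r e) (he' : Dec R' r' e') (Q : Submodule K R)
    (hdec : ∀ x : R, ∃ a : R', ∃ q ∈ Q, x = j a + q)
    (hdisj : ∀ a : R', j a ∈ Q → j a = 0)
    (hmul : ∀ (a : R'), ∀ q ∈ Q, j a * q ∈ Q)
    (htrans : ∀ x y : R →ₐ[K] K, ∃ τ : R ≃ₐ[K] R, (∀ a, x (τ a) = y a) ∧ ∀ q ∈ Q, τ q ∈ Q)
    (hauto : ∀ i l, ∃ (τ : R ≃ₐ[K] R) (τ' : R' ≃ₐ[K] R'), τ (e i) = e l ∧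
      ∀ a, τ (j a) = j (τ' a))
    {L : Type} [Field L] [Algebra K L] (ev : R →ₐ[K] L) (i0 : Fin r) (k0 : Fin r')
    (hi : ev (e i0) = 1) (hk : ev (j (e' k0)) = 1) :
    ((∀ a, ev (e i0 * a) = 0 → e i0 * a = 0) ∧ r = r') ↔
      ((∀ a, ev (j (e' k0 * a)) = 0 → e' k0 * a = 0) ∧
        ∀ q ∈ Q, ∀ a, ev q = ev (j a) → ev q = 0) := by
  obtain ⟨hrr, habs'⟩ := habs K R R' j hj r r' e e' he he' hauto
  have hcount := ringcount j hj he he' hauto ev i0 k0 hi hk
  constructor
  · rintro ⟨hinj, hr⟩
    refine ⟨habs' L ev i0 k0 hi hk hinj, ?_⟩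
    intro q hq a hqa
    have h2 : j (e' k0) = e i0 := hcount.1 hr.le
    have h3 : e i0 * (q - j a) = 0 :=
      hinj _ (by rw [map_mul, map_sub, hqa, sub_self, mul_zero])
    have h4 : e i0 * q = j (e' k0 * a) := by
      rw [mul_sub, sub_eq_zero] at h3
      rw [h3, map_mul, h2]
    have h5 : j (e' k0 * a) ∈ Q := by
      rw [← h4, ← h2]
      exact hmul _ q hq
    have h6 := hdisj _ h5
    rw [h6] at h4
    have h7 := congrArg ev h4
    rw [map_mul, hi, one_mul, map_zero] at h7
    exact h7
  · rintro ⟨hinj', hQ⟩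
    set f : R := j (e' k0) with hf
    have hff : f * f = f := by rw [hf, ← map_mul, he'.idem]
    -- `f * x ∈ Q` for `x` in the kernel
    have hker : ∀ x : R, ev x = 0 → f * x ∈ Q := by
      intro x hx
      obtain ⟨a, q, hq, rfl⟩ := hdec x
      rw [map_add] at hx
      have h2 : ev q = ev (j (-a)) := by
        rw [map_neg, map_neg]
        linear_combination hx
      have h3 := hQ q hq _ h2
      have h4 : ev (j a) = 0 := by rw [h3, add_zero] at hx; exact hx
      have h5 : e' k0 * a = 0 := hinj' a (by rw [map_mul, map_mul, h4, mul_zero])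
      rw [mul_add, hf, ← map_mul, h5, map_zero, zero_add]
      exact hmul _ q hq
    have hQ1 : (1 : R) ∉ Q := by
      intro h2
      have h3 := hdisj 1 (by rw [map_one]; exact h2)
      rw [map_one] at h3
      have h4 := congrArg ev h3
      rw [map_one, map_zero] at h4
      exact one_ne_zero h4
    have hzero : ∀ x : R, ev x = 0 → f * x = 0 := by
      intro x hx
      refine ring_core (K := K) h1 he Q hQ1 htrans _ fun s => ?_
      have h2 : s * (f * x) = f * (s * x) := by ring
      rw [h2]
      exact hker _ (by rw [map_mul, hx, mul_zero])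
    have h2 : f * (1 - e i0) = 0 := hzero _ (by rw [map_sub, map_one, hi, sub_self])
    have h3 : f = e i0 := by
      rcases he.dich i0 hff with h | h
      · exfalso
        have h4 : f = 0 := by
          rw [mul_sub, mul_one, mul_comm f, h, sub_zero] at h2
          exact h2
        rw [h4, map_zero] at hk
        exact zero_ne_one hk
      · rw [mul_sub, mul_one, mul_comm f, h, sub_eq_zero] at h2
        exact h2
    refine ⟨fun a ha => ?_, le_antisymm (hcount.2 h3) hrr⟩
    have h4 := hzero _ ha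
    rw [h3, ← mul_assoc, he.idem] at h4
    exact h4

end Ring

end Pool.Agent.Lib.MP_ae0f86_nt
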