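import Pool.Agent.Lib.MP_ae0f86_nt.D.Final
import Pool.Agent.Lib.MP_ae0f86_nt.R.Defs
import Pool.Agent.Lib.MP_ae0f86_nt.R.Ring

/-!
# MP_ae0f86_nt : the transcendence criterion, the complement of `⟨M₀⟩`
-/

set_option autoImplicit false

universe w v u

open CategoryTheory CategoryTheory.Limits Opposite MonoidalCategory

namespace Pool.Agent.Lib.MP_ae0f86_nt

noncomputable section

attribute [local instance] CategoryTheory.Abelian.hasFiniteBiproducts

section Sym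

variable {A : Type u} [Category.{v} A] [Abelian A] [MonoidalCategory A] [SymmetricCategory A]
  {K : Type} [Field K] (H : A ⥤ ModuleCat.{0} K) (HB : A ⥤ ModuleCat.{0} ℚ)
  [FibreFunctor H] [FibreFunctor HB]

theorem r_add {S : A → Prop} (hS : Closed S) {N N' : A} (hN : S N) (hN' : S N') (ω : H.obj N)
    (ω' : H.obj N') (σ : Module.Dual ℚ (HB.obj N)) (σ' : Module.Dual ℚ (HB.obj N')) :
    asym H HB (hS.sum hN hN') ((H.map (biprod.inl : N ⟶ N ⊞ N')).hom ω +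
      (H.map (biprod.inr : N' ⟶ N ⊞ N')).hom ω') (σ ∘ₗ (HB.map (biprod.fst : N ⊞ N' ⟶ N)).hom +
      σ' ∘ₗ (HB.map (biprod.snd : N ⊞ N' ⟶ N')).hom) =
    asym H HB hN ω σ + asym H HB hN' ω' σ' := by
  obtain ⟨hadd, hsmul, haddr, hsmulr, hfun, hz, hz'⟩ := a_arel H HB S
  rw [hadd]
  congr 1
  · rw [← hfun hN (hS.sum hN hN')]
    congr 1
    rw [LinearMap.add_comp, LinearMap.comp_assoc, LinearMap.comp_assoc, ← ModuleCat.hom_comp,
      ← ModuleCat.hom_comp, ← HB.map_comp, ← HB.map_comp, biprod.inl_fst, biprod.inl_snd,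
      HB.map_id, HB.map_zero]
    simp
  · rw [← hfun hN' (hS.sum hN hN')]
    congr 1
    rw [LinearMap.add_comp, LinearMap.comp_assoc, LinearMap.comp_assoc, ← ModuleCat.hom_comp,
      ← ModuleCat.hom_comp, ← HB.map_comp, ← HB.map_comp, biprod.inr_fst, biprod.inr_snd,
      HB.map_id, HB.map_zero]
    simp

omit [MonoidalCategory A] [SymmetricCategory A] in
theorem r_total {F : Type} [Field F] (H : A ⥤ ModuleCat.{0} F) [H.Additive] {N N' : A}
    (η : H.obj (N ⊞ N')) :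
    (H.map (biprod.inl : N ⟶ N ⊞ N')).hom ((H.map (biprod.fst : N ⊞ N' ⟶ N)).hom η) +
      (H.map (biprod.inr : N' ⟶ N ⊞ N')).hom ((H.map (biprod.snd : N ⊞ N' ⟶ N')).hom η) = η := by
  have h4 : (H.map (𝟙 (N ⊞ N'))).hom η = η := by
    rw [H.map_id]; rfl
  rw [← biprod.total, Functor.map_add, H.map_comp, H.map_comp] at h4
  exact h4

/-- Splitting a symbol along an isomorphism `N ≅ N₀ ⊞ N₁`. -/
theorem r_split {S : A → Prop} (hS : Closed S) {N N₀ N₁ : A} (hN : S N) (hN₀ : S N₀)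
    (hN₁ : S N₁) (φ : N ≅ N₀ ⊞ N₁) (ω : H.obj N) (σ : Module.Dual ℚ (HB.obj N)) :
    asym H HB hN ω σ =
      asym H HB hN₀ ((H.map (φ.hom ≫ biprod.fst)).hom ω)
        (σ ∘ₗ (HB.map (biprod.inl ≫ φ.inv)).hom) +
      asym H HB hN₁ ((H.map (φ.hom ≫ biprod.snd)).hom ω)
        (σ ∘ₗ (HB.map (biprod.inr ≫ φ.inv)).hom) := by
  obtain ⟨hadd, hsmul, haddr, hsmulr, hfun, hz, hz'⟩ := a_arel H HB S
  have hB : S (N₀ ⊞ N₁) := hS.sum hN₀ hN₁
  have h1 : asym H HB hN ω σ =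
      asym H HB hB ((H.map φ.hom).hom ω) (σ ∘ₗ (HB.map φ.inv).hom) := by
    rw [← hfun hN hB, LinearMap.comp_assoc, ← ModuleCat.hom_comp, ← HB.map_comp,
      φ.hom_inv_id, HB.map_id]
    rfl
  have h2 := r_total H ((H.map φ.hom).hom ω)
  rw [h1]
  conv_lhs => rw [← h2]
  rw [hadd, ← hfun hN₀ hB, ← hfun hN₁ hB, LinearMap.comp_assoc, LinearMap.comp_assoc,
    ← ModuleCat.hom_comp, ← ModuleCat.hom_comp, ← HB.map_comp, ← HB.map_comp, H.map_comp,
    H.map_comp]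
  rfl

end Sym

section Orth

variable {A : Type u} [Category.{v} A] [Abelian A] [MonoidalCategory A] [SymmetricCategory A]
  [RigidCategory A]

omit [SymmetricCategory A] in
theorem orth_sum {M₀ W W' : A} (h : Orthogonal M₀ W) (h' : Orthogonal M₀ W') :
    Orthogonal M₀ (W ⊞ W') := by
  intro N hN
  refine ⟨fun f => ?_, fun f => ?_⟩
  · refine biprod.hom_ext _ _ ?_ ?_
    · rw [(h N hN).1 (f ≫ biprod.fst), zero_comp]
    · rw [(h' N hN).1 (f ≫ biprod.snd), zero_comp]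
  · refine biprod.hom_ext' _ _ ?_ ?_
    · rw [(h N hN).2 (biprod.inl ≫ f), comp_zero]
    · rw [(h' N hN).2 (biprod.inr ≫ f), comp_zero]

omit [SymmetricCategory A] in
theorem orth_iso {M₀ W W' : A} (φ : W ≅ W') (h : Orthogonal M₀ W) : Orthogonal M₀ W' := by
  intro N hN
  refine ⟨fun f => ?_, fun f => ?_⟩
  · have h1 := (h N hN).1 (f ≫ φ.inv)
    rw [← Category.comp_id f, ← φ.inv_hom_id, ← Category.assoc, h1, zero_comp]
  · have h1 := (h N hN).2 (φ.hom ≫ f)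
    rw [← Category.id_comp f, ← φ.inv_hom_id, Category.assoc, h1, comp_zero]

omit [SymmetricCategory A] in
theorem orth_zero (M₀ : A) {Z : A} (hZ : IsZero Z) : Orthogonal M₀ Z :=
  fun _ _ => ⟨fun f => hZ.eq_of_tgt f 0, fun f => hZ.eq_of_src f 0⟩

theorem orth_tensor {M₀ N₀ W : A} (hN₀ : Gen M₀ N₀) (h : Orthogonal M₀ W) :
    Orthogonal M₀ (N₀ ⊗ W) := by
  intro N hN
  refine ⟨fun f => ?_, fun f => ?_⟩
  · let E := tensorLeftHomEquiv N N₀ (N₀ᘁ) W
    have h1 : E.symm f = E.symm 0 := by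
      rw [(h _ (Gen.tensor (Gen.dual hN₀) hN)).1 (E.symm f),
        (h _ (Gen.tensor (Gen.dual hN₀) hN)).1 (E.symm 0)]
    exact E.symm.injective h1
  · let E := tensorRightHomEquiv W N₀ (N₀ᘁ) N
    have h1 : E ((β_ W N₀).hom ≫ f) = E 0 := by
      rw [(h _ (Gen.tensor hN (Gen.dual hN₀))).2 (E ((β_ W N₀).hom ≫ f)),
        (h _ (Gen.tensor hN (Gen.dual hN₀))).2 (E 0)]
    have h2 := E.injective h1
    rw [← cancel_epi (β_ W N₀).hom, h2, comp_zero]

end Orth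

end

end Pool.Agent.Lib.MP_ae0f86_nt
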