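import Pool.Agent.Lib.MP_ae0f86_nt.R.Cat

/-!
# MP_ae0f86_nt : the transcendence criterion, the complement of `⟨M₀⟩` in the period algebra
-/

set_option autoImplicit false

universe w v u

open CategoryTheory CategoryTheory.Limits Opposite MonoidalCategory

open scoped ZeroObject

namespace Pool.Agent.Lib.MP_ae0f86_nt

noncomputable section

attribute [local instance] CategoryTheory.Abelian.hasFiniteBiproducts

variable {A : Type u} [Category.{v} A] [Abelian A] [MonoidalCategory A] [SymmetricCategory A]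
  [RigidCategory A]

section QQ

variable {K : Type} [Field K] (H : A ⥤ ModuleCat.{0} K) (HB : A ⥤ ModuleCat.{0} ℚ)
  [FibreFunctor H] [FibreFunctor HB]

/-- The subspace of the classes of the symbols of the objects orthogonal to `⟨M₀⟩`. -/
def rQ (M M₀ : A) : Submodule K (PerAlg H HB (Gen M)) where
  carrier := {x | ∃ (W : A) (hW : Gen M W) (ω : H.obj W) (σ : Module.Dual ℚ (HB.obj W)),
    Orthogonal M₀ W ∧ x = asym H HB hW ω σ}
  zero_mem' := by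
    have hG : TClosed (Gen M) := a_genclosed.1 M
    obtain ⟨hadd, hsmul, haddr, hsmulr, hfun, hz, hz'⟩ := a_arel H HB (Gen M)
    refine ⟨0, ?_, 0, 0, orth_zero M₀ (isZero_zero A), (hz _ _).symm⟩
    exact Gen.quot (0 : 𝟙_ A ⟶ (0 : A)) Gen.unit
  add_mem' := by
    have hG : TClosed (Gen M) := a_genclosed.1 M
    rintro _ _ ⟨W, hW, ω, σ, ho, rfl⟩ ⟨W', hW', ω', σ', ho', rfl⟩
    exact ⟨_, _, _, _, orth_sum ho ho', (r_add H HB hG.toClosed hW hW' ω ω' σ σ').symm⟩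
  smul_mem' := by
    obtain ⟨hadd, hsmul, haddr, hsmulr, hfun, hz, hz'⟩ := a_arel H HB (Gen M)
    rintro a _ ⟨W, hW, ω, σ, ho, rfl⟩
    exact ⟨W, hW, a • ω, σ, ho, (hsmul hW a ω σ).symm⟩

variable {H HB}

theorem rQ_dec [CharZero K] {M M₀ : A} (hM : Gen M M₀) (hs : SplitsOver M M₀)
    (x : PerAlg H HB (Gen M)) :
    ∃ (N : A) (hN : Gen M₀ N) (ω : H.obj N) (σ : Module.Dual ℚ (HB.obj N)),
      ∃ q ∈ rQ H HB M M₀, x = asym H HB (a_genclosed.2.2.2 M M₀ N hM hN) ω σ + q := by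
  have hG : TClosed (Gen M) := a_genclosed.1 M
  obtain ⟨y, rfl⟩ := (a_fpring H HB (Gen M) hG).2 x
  obtain ⟨N, hN, ω, σ, rfl⟩ := a_single H HB (Gen M) hG.toClosed y
  rw [(a_algrel H HB (Gen M)).1 hN ω σ]
  obtain ⟨N₀, N₁, hN₀, hN₁, ⟨φ⟩⟩ := hs N hN
  have h1 : Gen M N₁ := by
    have : Mono (biprod.inr ≫ φ.inv : N₁ ⟶ N) := mono_comp _ _
    exact Gen.sub (biprod.inr ≫ φ.inv : N₁ ⟶ N) hN
  exact ⟨N₀, hN₀, _, _, _, ⟨N₁, h1, _, _, hN₁, rfl⟩, r_split H HB hG.toClosed hN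
    (a_genclosed.2.2.2 M M₀ N₀ hM hN₀) h1 φ ω σ⟩

theorem rQ_disj [Linear ℚ A] [CharZero K] {M M₀ : A} (hM : Gen M M₀) (hs : SplitsOver M M₀)
    {N' : A} (hN' : Gen M₀ N') (ω' : H.obj N') (σ' : Module.Dual ℚ (HB.obj N'))
    (h : asym H HB (a_genclosed.2.2.2 M M₀ N' hM hN') ω' σ' ∈ rQ H HB M M₀) :
    asym H HB (a_genclosed.2.2.2 M M₀ N' hM hN') ω' σ' = 0 := by
  have hG : TClosed (Gen M) := a_genclosed.1 M
  have hMN' : Gen M N' := a_genclosed.2.2.2 M M₀ N' hM hN'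
  obtain ⟨hadd, hsmul, haddr, hsmulr, hfun, hz, hz'⟩ := a_arel H HB (Gen M)
  obtain ⟨W, hW, ω, σ, ho, hx⟩ := h
  rw [hx]
  have hneg : asym H HB hMN' ω' (-σ') = - asym H HB hMN' ω' σ' := by
    have h1 := hsmulr hMN' (-1) ω' σ'
    rw [neg_one_smul] at h1
    rw [h1]
    simp
  have h0 : asym H HB (hG.sum hW hMN') ((H.map (biprod.inl : W ⟶ W ⊞ N')).hom ω +
      (H.map (biprod.inr : N' ⟶ W ⊞ N')).hom ω') (σ ∘ₗ (HB.map (biprod.fst : W ⊞ N' ⟶ W)).hom +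
      (-σ') ∘ₗ (HB.map (biprod.snd : W ⊞ N' ⟶ N')).hom) = 0 := by
    rw [r_add H HB hG.toClosed hW hMN' ω ω' σ (-σ'), hneg, hx, add_neg_cancel]
  obtain ⟨P, i, hi, ⟨κ, hκ⟩, hi2⟩ := a_vans H HB (Gen M) hG (hG.sum hW hMN') _ _ h0
  have hP : Gen M P := Gen.sub i (hG.sum hW hMN')
  obtain ⟨P₀, P₁, hP₀, hP₁, ⟨φ⟩⟩ := hs P hP
  -- the two compositions which vanish
  have z0 : (biprod.inl ≫ φ.inv ≫ i ≫ biprod.fst : P₀ ⟶ W) = 0 := (ho P₀ hP₀).1 _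
  have z1 : (biprod.inr ≫ φ.inv ≫ i ≫ biprod.snd : P₁ ⟶ N') = 0 := (hP₁ N' hN').2 _
  have hP₁' : Gen M P₁ := by
    have : Mono (biprod.inr ≫ φ.inv : P₁ ⟶ P) := mono_comp _ _
    exact Gen.sub (biprod.inr ≫ φ.inv : P₁ ⟶ P) hP
  set g : P₁ ⟶ W := biprod.inr ≫ φ.inv ≫ i ≫ biprod.fst with hg
  set κ₁ : H.obj P₁ := (H.map (φ.hom ≫ biprod.snd)).hom κ with hκ₁
  -- `ω` comes from `P₁`
  have e1 : (H.map g).hom κ₁ = ω := by
    have h2 : i ≫ biprod.fst = (φ.hom ≫ biprod.snd) ≫ g := by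
      have h3 : φ.hom ≫ (biprod.fst ≫ biprod.inl + biprod.snd ≫ biprod.inr) ≫ φ.inv = 𝟙 P := by
        rw [biprod.total, Category.id_comp, φ.hom_inv_id]
      calc i ≫ biprod.fst = (φ.hom ≫ (biprod.fst ≫ biprod.inl + biprod.snd ≫ biprod.inr) ≫
            φ.inv) ≫ (i ≫ biprod.fst) := by rw [h3, Category.id_comp]
        _ = (φ.hom ≫ biprod.fst) ≫ (biprod.inl ≫ φ.inv ≫ i ≫ biprod.fst) +
            (φ.hom ≫ biprod.snd) ≫ g := by
              rw [hg]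
              simp only [Preadditive.add_comp, Preadditive.comp_add, Category.assoc]
        _ = (φ.hom ≫ biprod.snd) ≫ g := by rw [z0, comp_zero, zero_add]
    have h4 : (H.map (i ≫ biprod.fst)).hom κ = ω := by
      have h5 : (H.map i).hom κ = (H.map (biprod.inl : W ⟶ W ⊞ N')).hom ω +
        (H.map (biprod.inr : N' ⟶ W ⊞ N')).hom ω' := hκ
      have h6 : (H.map (biprod.fst : W ⊞ N' ⟶ W)).hom ((H.map (biprod.inl : W ⟶ W ⊞ N')).hom ω) =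
          ω := by
        rw [← LinearMap.comp_apply, ← ModuleCat.hom_comp, ← H.map_comp, biprod.inl_fst, H.map_id]
        rfl
      have h7 : (H.map (biprod.fst : W ⊞ N' ⟶ W)).hom
          ((H.map (biprod.inr : N' ⟶ W ⊞ N')).hom ω') = 0 := by
        rw [← LinearMap.comp_apply, ← ModuleCat.hom_comp, ← H.map_comp, biprod.inr_fst,
          H.map_zero]
        rfl
      rw [H.map_comp, ModuleCat.hom_comp, LinearMap.comp_apply, h5, map_add, h6, h7, add_zero]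
    rw [h2, H.map_comp, ModuleCat.hom_comp, LinearMap.comp_apply] at h4
    exact h4
  -- `σ` vanishes on `P₁`
  have e2 : σ ∘ₗ (HB.map g).hom = 0 := by
    have h2 : (σ ∘ₗ (HB.map (biprod.fst : W ⊞ N' ⟶ W)).hom +
      (-σ') ∘ₗ (HB.map (biprod.snd : W ⊞ N' ⟶ N')).hom) ∘ₗ
        (HB.map (biprod.inr ≫ φ.inv ≫ i : P₁ ⟶ W ⊞ N')).hom = 0 := by
      rw [show (biprod.inr ≫ φ.inv ≫ i : P₁ ⟶ W ⊞ N') = (biprod.inr ≫ φ.inv) ≫ i by
        rw [Category.assoc], HB.map_comp, ModuleCat.hom_comp, ← LinearMap.comp_assoc]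
      have h3 : (σ ∘ₗ (HB.map (biprod.fst : W ⊞ N' ⟶ W)).hom +
        (-σ') ∘ₗ (HB.map (biprod.snd : W ⊞ N' ⟶ N')).hom) ∘ₗ (HB.map i).hom = 0 := hi2
      rw [h3, LinearMap.zero_comp]
    rw [LinearMap.add_comp, LinearMap.comp_assoc, LinearMap.comp_assoc, ← ModuleCat.hom_comp,
      ← ModuleCat.hom_comp, ← HB.map_comp, ← HB.map_comp] at h2
    have h3 : (biprod.inr ≫ φ.inv ≫ i : P₁ ⟶ W ⊞ N') ≫ biprod.snd = 0 := by
      rw [← z1]
      simp only [Category.assoc]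
    have h4 : (biprod.inr ≫ φ.inv ≫ i : P₁ ⟶ W ⊞ N') ≫ biprod.fst = g := by
      rw [hg]
      simp only [Category.assoc]
    rw [h3, h4, HB.map_zero] at h2
    simpa using h2
  rw [← e1, ← hfun hP₁' hW g κ₁ σ, e2, hz' hP₁' κ₁]

theorem rQ_mul {M M₀ : A} (hM : Gen M M₀) {N : A} (hN : Gen M₀ N) (ω : H.obj N)
    (σ : Module.Dual ℚ (HB.obj N)) {q : PerAlg H HB (Gen M)} (hq : q ∈ rQ H HB M M₀) :
    asym H HB (a_genclosed.2.2.2 M M₀ N hM hN) ω σ * q ∈ rQ H HB M M₀ := by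
  obtain ⟨W, hW, ω', σ', ho, rfl⟩ := hq
  exact ⟨_, Gen.tensor (a_genclosed.2.2.2 M M₀ N hM hN) hW, _, _, orth_tensor hN ho,
    (a_algrel H HB (Gen M)).2.1 _ hW _ ω ω' σ σ'⟩

theorem gen_dclosed (M : A) : DClosed (Gen M) :=
  { a_genclosed.1 M with dual := fun h => Gen.dual h }

theorem rQ_trans [CharZero K] (M M₀ : A) (x y : PerAlg H HB (Gen M) →ₐ[K] K) :
    ∃ τ : PerAlg H HB (Gen M) ≃ₐ[K] PerAlg H HB (Gen M), (∀ a, x (τ a) = y a) ∧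
      ∀ q ∈ rQ H HB M M₀, τ q ∈ rQ H HB M M₀ := by
  obtain ⟨τ, θ, h1, h2, -⟩ := a_trans H HB (Gen M) (gen_dclosed M) x y
  refine ⟨τ, h2, ?_⟩
  rintro _ ⟨W, hW, ω, σ, ho, rfl⟩
  exact ⟨W, hW, _, σ, ho, h1 hW ω σ⟩

end QQ

end

end Pool.Agent.Lib.MP_ae0f86_nt
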