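import Pool.Agent.Lib.MP_ae0f86_nt.R.Local

/-!
# MP_ae0f86_nt : the transcendence criterion, the finite part
-/

set_option autoImplicit false

universe w v u

open CategoryTheory CategoryTheory.Limits Opposite MonoidalCategory

namespace Pool.Agent.Lib.MP_ae0f86_nt

noncomputable section

attribute [local instance] CategoryTheory.Abelian.hasFiniteBiproducts

section Ring

variable {K : Type} [Field K] {R : Type w} [CommRing R] [Algebra K R] {r : ℕ} {e : Fin r → R}

theorem Dec.mem_iff {a : R} :
    a ∈ Submodule.span K (Set.range e) ↔ ∃ c : Fin r → K, a = ∑ i, c i • e i := by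
  rw [Submodule.mem_span_range_iff_exists_fun]
  exact exists_congr fun c => eq_comm

theorem Dec.mul_single (he : Dec R r e) (c : Fin r → K) (i : Fin r) :
    e i * ∑ l, c l • e l = c i • e i := by
  rw [Finset.mul_sum, Finset.sum_eq_single i]
  · rw [mul_smul_comm, he.idem]
  · intro l _ hl
    rw [mul_smul_comm, he.orth i l hl.symm, smul_zero]
  · intro h
    exact absurd (Finset.mem_univ _) h

theorem Dec.mul_mem (he : Dec R r e) {a b : R} (ha : a ∈ Submodule.span K (Set.range e))
    (hb : b ∈ Submodule.span K (Set.range e)) : a * b ∈ Submodule.span K (Set.range e) := by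
  obtain ⟨c, rfl⟩ := Dec.mem_iff.1 ha
  rw [Finset.sum_mul]
  refine Submodule.sum_mem _ fun i _ => ?_
  rw [smul_mul_assoc]
  refine Submodule.smul_mem _ _ ?_
  obtain ⟨d, rfl⟩ := Dec.mem_iff.1 hb
  rw [he.mul_single]
  exact Submodule.smul_mem _ _ (Submodule.subset_span ⟨i, rfl⟩)

theorem Dec.one_mem (he : Dec R r e) : (1 : R) ∈ Submodule.span K (Set.range e) := by
  rw [← he.sum]
  exact Submodule.sum_mem _ fun i _ => Submodule.subset_span ⟨i, rfl⟩

/-- A locally constant function has finitely many values. -/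
theorem Dec.fin_val (he : Dec R r e) {a : R} (ha : a ∈ Submodule.span K (Set.range e)) :
    {z : K | ∃ y : R →ₐ[K] K, z = y a}.Finite := by
  obtain ⟨c, rfl⟩ := Dec.mem_iff.1 ha
  refine (Set.finite_range (fun i => c i)).subset ?_
  rintro _ ⟨y, rfl⟩
  have h1 : ∃ i, y (e i) ≠ 0 := by
    by_contra h
    push Not at h
    have h2 := congrArg y he.sum
    rw [map_sum, map_one, Finset.sum_eq_zero (fun i _ => h i)] at h2
    exact zero_ne_one h2
  obtain ⟨i, hi⟩ := h1
  refine ⟨i, ?_⟩
  have h2 := congrArg y (he.mul_single c i)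
  rw [map_mul, map_smul, smul_eq_mul, mul_comm (c i)] at h2
  exact (mul_left_cancel₀ hi h2).symm

/-- The entries of the inverse of a matrix of locally constant functions are locally constant. -/
theorem Dec.inv_mem [IsAlgClosed K] [Algebra.FiniteType K R] (h1 : S_finval.{w})
    (h2 : S_intspan.{w}) (he : Dec R r e) {I J : Type} [Fintype I] [DecidableEq I] [Fintype J]
    [DecidableEq J] (X : Matrix I J R) (Y : Matrix J I R) (hXY : X * Y = 1) (hYX : Y * X = 1)
    (hX : ∀ i j, X i j ∈ Submodule.span K (Set.range e)) (j : J) (i : I) :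
    Y j i ∈ Submodule.span K (Set.range e) := by
  classical
  rw [← h2 K R r e he]
  refine h1 K R r e he _ ?_
  let inv : Matrix I J K → Matrix J I K := fun Z =>
    if h : ∃ Z' : Matrix J I K, Z * Z' = 1 ∧ Z' * Z = 1 then h.choose else 0
  have hfin : {Z : Matrix I J K | ∃ y : R →ₐ[K] K, Z = X.map y}.Finite := by
    have h3 : ({Z : I → J → K | ∀ i j, Z i j ∈ {z : K | ∃ y : R →ₐ[K] K, z = y (X i j)}}).Finite := by
      have h4 := Set.Finite.pi' (fun i : I => Set.Finite.pi' (fun j : J => he.fin_val (hX i j)))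
      exact h4
    refine h3.subset ?_
    rintro _ ⟨y, rfl⟩ i j
    exact ⟨y, rfl⟩
  refine (hfin.image (fun Z => inv Z j i)).subset ?_
  rintro _ ⟨y, rfl⟩
  refine ⟨X.map y, ⟨y, rfl⟩, ?_⟩
  have e1 : X.map y * Y.map y = 1 := by
    rw [← Matrix.map_mul, hXY, Matrix.map_one _ (map_zero y) (map_one y)]
  have e2 : Y.map y * X.map y = 1 := by
    rw [← Matrix.map_mul, hYX, Matrix.map_one _ (map_zero y) (map_one y)]
  have hex : ∃ Z' : Matrix J I K, X.map y * Z' = 1 ∧ Z' * X.map y = 1 := ⟨Y.map y, e1, e2⟩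
  have e3 : inv (X.map y) = Y.map y := by
    show (if h : ∃ Z' : Matrix J I K, X.map y * Z' = 1 ∧ Z' * X.map y = 1 then h.choose
      else 0) = Y.map y
    rw [dif_pos hex]
    have h5 := hex.choose_spec
    calc hex.choose = hex.choose * (X.map y * Y.map y) := by rw [e1, Matrix.mul_one]
      _ = (hex.choose * X.map y) * Y.map y := by rw [Matrix.mul_assoc]
      _ = Y.map y := by rw [h5.2, Matrix.one_mul]
  show inv (X.map y) j i = y (Y j i)
  rw [e3]
  rfl

end Ring

end

end Pool.Agent.Lib.MP_ae0f86_nt
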