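import Pool.Agent.Lib.MP_ae0f86_nt.R.FinA

/-!
# MP_ae0f86_nt : the transcendence criterion, the dimension formula
-/

set_option autoImplicit false

universe w v u

open CategoryTheory CategoryTheory.Limits Opposite MonoidalCategory

namespace Pool.Agent.Lib.MP_ae0f86_nt

noncomputable section

attribute [local instance] CategoryTheory.Abelian.hasFiniteBiproducts

variable {A : Type u} [Category.{v} A] [Abelian A] [Linear ℚ A] [MonoidalCategory A]
  [SymmetricCategory A] [RigidCategory A] {HdR : A ⥤ ModuleCat.{0} QBar}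
  {HB : A ⥤ ModuleCat.{0} ℚ} [FibreFunctor HdR] [FibreFunctor HB]

omit [Linear ℚ A] in
/-- The objects of `⟨U⟩` have locally constant symbols if `U` has. -/
theorem r_fw_le {M U : A} (hU : Gen M U) {r : ℕ} {e : Fin r → PerAlg HdR HB (Gen M)}
    (he : Dec (PerAlg HdR HB (Gen M)) r e)
    (h : fw HdR HB hU ≤ Submodule.span QBar (Set.range e)) {N : A} (hN : Gen U N) :
    fw HdR HB (a_genclosed.2.2.2 M U N hU hN) ≤ Submodule.span QBar (Set.range e) := by
  classical
  have hac : IsAlgClosed QBar := (algebraicClosure.isAlgClosure ℚ ℂ).isAlgClosed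
  have hft := a_fintype HdR HB M
  have hG : TClosed (Gen M) := a_genclosed.1 M
  induction hN with
  | base => exact h
  | unit =>
    rw [(a_fwprod HdR HB).2, Submodule.one_le]
    exact he.one_mem
  | @sum N N' hN hN' ih ih' =>
    rw [fw, Submodule.span_le]
    rintro _ ⟨ω, σ, rfl⟩
    rw [SetLike.mem_coe, r_split HdR HB hG.toClosed (a_genclosed.2.2.2 M U _ hU (Gen.sum hN hN'))
      (a_genclosed.2.2.2 M U _ hU hN) (a_genclosed.2.2.2 M U _ hU hN') (Iso.refl _) ω σ]
    exact Submodule.add_mem _ (ih (Submodule.subset_span ⟨_, _, rfl⟩))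
      (ih' (Submodule.subset_span ⟨_, _, rfl⟩))
  | @tensor N N' hN hN' ih ih' =>
    rw [(a_fwprod HdR HB).1 (a_genclosed.2.2.2 M U _ hU hN) (a_genclosed.2.2.2 M U _ hU hN'),
      Submodule.mul_le]
    exact fun a ha b hb => he.mul_mem (ih ha) (ih' hb)
  | @dual N hN ih =>
    have hfin : Module.Finite QBar (HdR.obj N) := FibreFunctor.finite N
    have hfin' : Module.Finite ℚ (HB.obj N) := FibreFunctor.finite N
    have gN : Gen M N := a_genclosed.2.2.2 M U _ hU hN
    let b := Module.finBasis ℚ (HB.obj N)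
    let ω := Module.finBasis QBar (HdR.obj N)
    obtain ⟨ω', β', h1, h2⟩ := a_xmat HdR HB (Gen M) (gen_dclosed M) gN ω b
    have h3 := he.inv_mem (K := QBar) (f_finval p_nullst) f_intspan _ _ h1 h2
      (fun i j => ih (Submodule.subset_span ⟨_, _, rfl⟩))
    obtain ⟨hadd, hsmul, haddr, hsmulr, hfun, hz, hz'⟩ := a_arel HdR HB (Gen M)
    rw [fw, Submodule.span_le]
    rintro _ ⟨η, τ, rfl⟩
    have gD : Gen M (Nᘁ) := Gen.dual gN
    let L1 : HdR.obj (Nᘁ) →ₗ[QBar] PerAlg HdR HB (Gen M) :=
      { toFun := fun ω => asym HdR HB gD ω τ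
        map_add' := fun ω ω' => hadd gD ω ω' τ
        map_smul' := fun a ω => hsmul gD a ω τ }
    show asym HdR HB gD η τ ∈ Submodule.span QBar (Set.range e)
    have e1 : asym HdR HB gD η τ = L1 η := rfl
    rw [e1, ← ω'.sum_repr η, map_sum]
    refine Submodule.sum_mem _ fun i _ => ?_
    rw [map_smul]
    refine Submodule.smul_mem _ _ ?_
    show asym HdR HB gD (ω' i) τ ∈ Submodule.span QBar (Set.range e)
    let L2 : Module.Dual ℚ (HB.obj (Nᘁ)) →+ PerAlg HdR HB (Gen M) :=
      { toFun := fun σ => asym HdR HB gD (ω' i) σ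
        map_zero' := hz' gD _
        map_add' := fun σ σ' => haddr gD _ σ σ' }
    have e2 : asym HdR HB gD (ω' i) τ = L2 τ := rfl
    rw [e2, ← β'.sum_repr τ, map_sum]
    refine Submodule.sum_mem _ fun j _ => ?_
    show asym HdR HB gD (ω' i) (β'.repr τ j • β' j) ∈ _
    rw [hsmulr]
    exact Submodule.smul_mem _ _ (h3 j i)
  | @sub N N' i hi hN ih =>
    have gN : Gen M N := a_genclosed.2.2.2 M U _ hU hN
    have gN' : Gen M N' := Gen.sub i gN
    exact (a_fwlin HdR HB hG.toClosed gN' gN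
      ((a_lincl.1 N).sub i (a_lincl.2.1 N))).trans ih
  | @quot N N' p hp hN ih =>
    have gN : Gen M N := a_genclosed.2.2.2 M U _ hU hN
    have gN' : Gen M N' := Gen.quot p gN
    exact (a_fwlin HdR HB hG.toClosed gN' gN
      ((a_lincl.1 N).quot p (a_lincl.2.1 N))).trans ih

/-- The finite part of `⟨M⟩`: number of components, dimension formula. -/
theorem r_finU (c : Comparison HdR HB) {M U : A} (hU : Gen M U) {r : ℕ}
    {e : Fin r → PerAlg HdR HB (Gen M)} (he : Dec (PerAlg HdR HB (Gen M)) r e)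
    (h : fw HdR HB hU = Submodule.span QBar (Set.range e)) :
    DimensionFormula c U ∧ components HdR HB M = components HdR HB U ∧
      (∀ N, Gen U N → ringKrullDim (PerAlg HB HB (Gen N)) = 0) ∧
      ∀ N, Gen U N → ∀ z ∈ c.Per N, IsAlgebraic ℚ z := by
  have hac : IsAlgClosed QBar := (algebraicClosure.isAlgClosure ℚ ℂ).isAlgClosed
  -- the image of the period algebra of an object `N` of `⟨U⟩`
  have key : ∀ N (hN : Gen U N), ∃ j : PerAlg HdR HB (Gen N) →ₐ[QBar] PerAlg HdR HB (Gen M),
      Function.Injective j ∧ (∀ x, c.evAlg (Gen M) (j x) = c.evAlg (Gen N) x) ∧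
      (∀ x, j x ∈ Submodule.span QBar (Set.range e)) ∧
      ∀ x ∈ fw HdR HB (a_genclosed.2.2.2 M U N hU hN), ∃ y, j y = x := by
    intro N hN
    have gN : Gen M N := a_genclosed.2.2.2 M U N hU hN
    obtain ⟨j, hj, hjs, hje, -⟩ := r_setup c gN
    refine ⟨j, hj, hje, fun x => ?_, fun x hx => ?_⟩
    · obtain ⟨P, hP, ω, σ, rfl⟩ := r_sym N x
      rw [hjs hP ω σ]
      have gP : Gen U P := a_genclosed.2.2.2 U N P hN hP
      exact r_fw_le hU he h.le gP (Submodule.subset_span ⟨ω, σ, rfl⟩)
    · have h1 : fw HdR HB gN ≤ Subalgebra.toSubmodule j.range := by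
        rw [fw, Submodule.span_le]
        rintro _ ⟨ω, σ, rfl⟩
        exact ⟨asym HdR HB (Gen.base : Gen N N) ω σ, hjs Gen.base ω σ⟩
      exact h1 hx
  obtain ⟨j, hj, hje, hjm, hjs⟩ := key U Gen.base
  -- the idempotents of the period algebra of `⟨U⟩`
  have h1 : ∀ i, ∃ y, j y = e i := by
    intro i
    apply hjs
    show e i ∈ fw HdR HB hU
    rw [h]
    exact Submodule.subset_span ⟨i, rfl⟩
  choose e' he' using h1
  have hdec : Dec (PerAlg HdR HB (Gen U)) r e' :=
    { ne := fun i h0 => he.ne i (by rw [← he' i, h0, map_zero])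
      idem := fun i => hj (by rw [map_mul, he', he.idem])
      orth := fun i l hil => hj (by rw [map_mul, he', he', he.orth i l hil, map_zero])
      sum := hj (by
        rw [map_sum, map_one, ← he.sum]
        exact Finset.sum_congr rfl fun i _ => he' i)
      dom := fun i a b hab => by
        have h2 := congrArg j hab
        rw [map_mul, map_mul, he', map_zero] at h2
        rcases he.dom i _ _ h2 with h3 | h3
        · exact Or.inl (hj (by rw [map_mul, he', h3, map_zero]))
        · exact Or.inr (hj (by rw [map_mul, he', h3, map_zero])) }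
  refine ⟨?_, ?_, ?_, ?_⟩
  · obtain ⟨i0, hi0⟩ := (d_evcut QBar (PerAlg HdR HB (Gen U)) r e' hdec ℂ (c.evAlg (Gen U))).1
    rw [r_dim c U r e' hdec i0 hi0]
    intro a ha
    obtain ⟨d, hd⟩ := Dec.mem_iff.1 (hjm a)
    have h2 : j (e' i0 * a) = d i0 • e i0 := by
      rw [map_mul, he', hd, he.mul_single]
    have h3 := congrArg (c.evAlg (Gen M)) h2
    rw [hje, ha, map_smul, ← he' i0, hje, hi0, Algebra.smul_def, mul_one] at h3
    have h4 : d i0 = 0 := (algebraMap QBar ℂ).injective (by rw [← h3, map_zero])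
    exact hj (by rw [h2, h4, zero_smul, map_zero])
  · rw [components, components, (d_comps (PerAlg HdR HB (Gen M)) r e he).2.1,
      (d_comps (PerAlg HdR HB (Gen U)) r e' hdec).2.1]
  · intro N hN
    obtain ⟨jN, hjN, -, hjNm, -⟩ := key N hN
    rw [a_basedim c N]
    have hnt : Nontrivial (PerAlg HdR HB (Gen N)) :=
      (c.evAlg (Gen N)).toRingHom.domain_nontrivial
    have h2 := p_intdim QBar (PerAlg HdR HB (Gen N)) (algebraMap QBar (PerAlg HdR HB (Gen N)))
      (algebraMap QBar (PerAlg HdR HB (Gen N))).injective (by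
        intro x
        have h3 : IsIntegral QBar (jN x) :=
          (f_intspan QBar (PerAlg HdR HB (Gen M)) r e he _).2 (hjNm x)
        exact (isIntegral_algHom_iff jN hjN).1 h3)
    rw [← h2, ringKrullDim_eq_zero_of_field]
  · rintro N hN z ⟨ω, σ, rfl⟩
    have gN : Gen M N := a_genclosed.2.2.2 M U N hU hN
    have h2 : asym HdR HB gN ω σ ∈ Submodule.span QBar (Set.range e) :=
      r_fw_le hU he h.le hN (Submodule.subset_span ⟨ω, σ, rfl⟩)
    have h3 : IsIntegral QBar (asym HdR HB gN ω σ) :=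
      (f_intspan QBar (PerAlg HdR HB (Gen M)) r e he _).2 h2
    have h4 : IsIntegral QBar (c.per N ω σ) := by
      rw [← r_evAlg c (Gen M) gN ω σ]
      exact h3.map (c.evAlg (Gen M))
    have hQ : Algebra.IsAlgebraic ℚ QBar := (algebraicClosure.isAlgClosure ℚ ℂ).isAlgebraic
    have hQ' : Algebra.IsIntegral ℚ QBar := Algebra.isAlgebraic_iff_isIntegral.1 hQ
    have h5 : IsIntegral ℚ (c.per N ω σ) := isIntegral_trans _ h4
    exact h5.isAlgebraic

end

end Pool.Agent.Lib.MP_ae0f86_nt
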