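import Pool.Agent.Lib.MP_ae0f86_nt.R.FinB

/-!
# MP_ae0f86_nt : the transcendence criterion for the dimension formula
-/

set_option autoImplicit false

universe w v u

open CategoryTheory CategoryTheory.Limits Opposite MonoidalCategory

namespace Pool.Agent.Lib.MP_ae0f86_nt

noncomputable section

attribute [local instance] CategoryTheory.Abelian.hasFiniteBiproducts

variable {A : Type u} [Category.{v} A] [Abelian A] [Linear ℚ A] [MonoidalCategory A]
  [SymmetricCategory A] [RigidCategory A] {HdR : A ⥤ ModuleCat.{0} QBar}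
  {HB : A ⥤ ModuleCat.{0} ℚ} [FibreFunctor HdR] [FibreFunctor HB]

omit [Linear ℚ A] in
/-- If `dim G(F) = 0` then the period algebra of `⟨F⟩` is integral over `QBar`. -/
theorem r_int_of_dim (c : Comparison HdR HB) {F : A}
    (hF : ringKrullDim (PerAlg HB HB (Gen F)) = 0) (x : PerAlg HdR HB (Gen F)) :
    IsIntegral QBar x := by
  have hac : IsAlgClosed QBar := (algebraicClosure.isAlgClosure ℚ ℂ).isAlgClosed
  obtain ⟨r, e, he⟩ := a_pdec HdR HB F
  obtain ⟨-, g, t, hg, hgi, -, -, -⟩ := a_dims c F r e he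
  have hg0 : g = 0 := by
    rw [hg] at hF
    exact_mod_cast hF
  have h1 : ∀ i, ∃ a : QBar, e i * x = a • e i := by
    intro i
    obtain ⟨hdom, hmem⟩ := d_decdom (PerAlg HdR HB (Gen F)) r e he i
    have h2 := (hgi i).2
    rw [hg0, Nat.cast_zero, trdeg_eq_zero_iff] at h2
    have h3 : Algebra.IsIntegral QBar (PerAlg HdR HB (Gen F) ⧸ Ideal.span {1 - e i}) :=
      Algebra.isAlgebraic_iff_isIntegral.1 h2
    obtain ⟨a, ha⟩ := (IsAlgClosed.algebraMap_bijective_of_isIntegral (k := QBar)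
      (K := PerAlg HdR HB (Gen F) ⧸ Ideal.span {1 - e i})).2
      (Ideal.Quotient.mk (Ideal.span {1 - e i}) x)
    refine ⟨a, ?_⟩
    have h4 : x - algebraMap QBar _ a ∈ Ideal.span {1 - e i} := by
      rw [← Ideal.Quotient.eq, ← ha]
      rfl
    rw [hmem, mul_sub, sub_eq_zero] at h4
    rw [h4, Algebra.algebraMap_eq_smul_one, mul_smul_comm, mul_one]
  choose a ha using h1
  rw [f_intspan QBar (PerAlg HdR HB (Gen F)) r e he]
  refine Dec.mem_iff.2 ⟨a, ?_⟩
  rw [← Finset.sum_congr rfl (fun i _ => ha i), ← Finset.sum_mul, he.sum, one_mul]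

/-- An object orthogonal to the finite part has no nonzero finite subobject. -/
theorem r_orth_fin (c : Comparison HdR HB) {M U : A} (hss : SemisimpleGen M) (hU : Gen M U)
    {r : ℕ} {e : Fin r → PerAlg HdR HB (Gen M)} (he : Dec (PerAlg HdR HB (Gen M)) r e)
    (h : fw HdR HB hU = Submodule.span QBar (Set.range e)) {W F : A} (hW : Gen M W)
    (ho : Orthogonal U W) (i : F ⟶ W) (hi : Mono i)
    (hF : ringKrullDim (PerAlg HB HB (Gen F)) = 0) : IsZero F := by
  have hac : IsAlgClosed QBar := (algebraicClosure.isAlgClosure ℚ ℂ).isAlgClosed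
  have gF : Gen M F := Gen.sub i hW
  have hoF : Orthogonal U F := by
    refine ss_orth hss gF fun N hN f => ?_
    have h1 := (ho N hN).1 (f ≫ i)
    rw [← cancel_mono i, h1, zero_comp]
  obtain ⟨j, hj, hjs, hje, -⟩ := r_setup (HdR := HdR) (HB := HB) c gF
  obtain ⟨jU, hjU, hjUs, -, -⟩ := r_setup (HdR := HdR) (HB := HB) c hU
  have hfw : fw HdR HB gF = ⊥ := by
    rw [eq_bot_iff, fw, Submodule.span_le]
    rintro _ ⟨ω, σ, rfl⟩
    show asym HdR HB gF ω σ ∈ (⊥ : Submodule QBar _)
    rw [Submodule.mem_bot]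
    have h1 : IsIntegral QBar (asym HdR HB gF ω σ) := by
      have h2 := (r_int_of_dim c hF (asym HdR HB (Gen.base : Gen F F) ω σ)).map j
      rw [hjs] at h2
      exact h2
    have h2 : asym HdR HB gF ω σ ∈ fw HdR HB hU := by
      rw [h]
      exact (f_intspan QBar (PerAlg HdR HB (Gen M)) r e he _).1 h1
    have h3 : fw HdR HB hU ≤ Subalgebra.toSubmodule jU.range := by
      rw [fw, Submodule.span_le]
      rintro _ ⟨ω, σ, rfl⟩
      exact ⟨asym HdR HB (Gen.base : Gen U U) ω σ, hjUs Gen.base ω σ⟩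
    obtain ⟨y, hy⟩ := h3 h2
    obtain ⟨P, hP, ω', σ', rfl⟩ := r_sym U y
    have h4 : asym HdR HB gF ω σ = asym HdR HB (a_genclosed.2.2.2 M U P hU hP) ω' σ' := by
      rw [← hjUs hP ω' σ']
      exact hy.symm
    rw [h4]
    refine rQ_disj hU (ss_splits HB hss) hP ω' σ' ?_
    rw [← h4]
    exact ⟨F, gF, ω, σ, hoF, rfl⟩
  have h5 := a_fwdim c (a_genclosed.1 M) gF
  rw [hfw, finrank_bot] at h5
  by_contra hne
  have h6 := (f_nfpos c F).1 hne
  unfold Nf at h6
  omega

/-- The criterion for the dimension formula. -/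
theorem r_dimcrit (c : Comparison HdR HB) {M : A} (hss : SemisimpleGen M) :
    DimensionFormula c M ↔ ∀ W : A, Gen M W →
      (∀ (F : A) (i : F ⟶ W), Mono i → ringKrullDim (PerAlg HB HB (Gen F)) = 0 → IsZero F) →
      ∀ z ∈ c.Per W, z ≠ 0 → Transcendental ℚ z := by
  obtain ⟨r, e, he⟩ := a_pdec HdR HB M
  obtain ⟨U, hU, hUe⟩ := a_finpart HdR HB c M r e he
  obtain ⟨hdU, hcU, hfin, halg⟩ := r_finU c hU he hUe
  have h1 := r_rel c hU (ss_splits HB hss)
  have h2 : DimensionFormula c M ↔ ∀ W : A, Gen M W → Orthogonal U W → ∀ N : A, Gen U N →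
      ∀ z ∈ c.Per W, z ∈ c.Per N → z = 0 := by
    constructor
    · intro hd
      exact (h1.1 ⟨hd, hcU⟩).2
    · intro hd
      exact (h1.2 ⟨hdU, hd⟩).1
  rw [h2]
  constructor
  · intro h W hW hf z hz hz0 hz'
    apply hz0
    have ho : Orthogonal U W := by
      refine ss_orth hss hW fun N hN f => ?_
      have h3 : IsZero (Abelian.image f) := hf _ (Abelian.image.ι f) inferInstance
        (hfin _ (Gen.quot (Abelian.factorThruImage f) hN))
      rw [← Abelian.image.fac f, h3.eq_of_tgt (Abelian.factorThruImage f) 0, zero_comp]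
    have h3 : z ∈ algebraicClosure ℚ ℂ := mem_algebraicClosure_iff.2 hz'
    exact h W hW ho (𝟙_ A) Gen.unit z hz (r_alg_period c ⟨z, h3⟩)
  · intro h W hW ho N hN z hz hz'
    by_contra hz0
    refine h W hW (fun F i hi hF => r_orth_fin c hss hU he hUe hW ho i hi hF) z hz hz0 ?_
    exact halg N hN z hz'

end

end Pool.Agent.Lib.MP_ae0f86_nt
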