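import Pool.Agent.Lib.MP_ae0f86_nt.R.Local

/-!
# MP_ae0f86_nt : the transcendence criterion, local form for sums of periods
-/

set_option autoImplicit false

universe w v u

open CategoryTheory CategoryTheory.Limits Opposite MonoidalCategory

namespace Pool.Agent.Lib.MP_ae0f86_nt

noncomputable section

attribute [local instance] CategoryTheory.Abelian.hasFiniteBiproducts

theorem finrank_map_of_inj {K E F : Type*} [Field K] [AddCommGroup E] [Module K E]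
    [AddCommGroup F] [Module K F] (f : E →ₗ[K] F) (p : Submodule K E)
    (h : ∀ x ∈ p, f x = 0 → x = 0) : Module.finrank K (p.map f) = Module.finrank K p := by
  have h3 : Function.Injective (f.domRestrict p) := by
    rw [← LinearMap.ker_eq_bot, LinearMap.ker_eq_bot']
    rintro ⟨x, hx⟩ hx0
    exact Subtype.ext (h x hx hx0)
  have h4 := LinearMap.finrank_range_of_inj h3
  rw [LinearMap.range_domRestrict] at h4
  exact h4

variable {A : Type u} [Category.{v} A] [Abelian A] [Linear ℚ A] [MonoidalCategory A]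
  [SymmetricCategory A] [RigidCategory A] {HdR : A ⥤ ModuleCat.{0} QBar}
  {HB : A ⥤ ModuleCat.{0} ℚ} [FibreFunctor HdR] [FibreFunctor HB]

theorem r_localB (c : Comparison HdR HB) {M : A} (hss : SemisimpleGen M) {N : A} (hN : Gen M N)
    (h : ∀ (W : A) (i : W ⟶ N ⊗ Nᘁ), Mono i → (∀ f : 𝟙_ A ⟶ W, f = 0) →
      (1 : ℂ) ∉ Submodule.span QBar (c.Per W))
    (x : PerAlg HdR HB (Gen M)) (hx : x ∈ fw HdR HB hN) (h0 : c.evAlg (Gen M) x = 0) :
    x = 0 := by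
  have hac : IsAlgClosed QBar := (algebraicClosure.isAlgClosure ℚ ℂ).isAlgClosed
  have hft := a_fintype HdR HB M
  obtain ⟨r, e, he⟩ := a_pdec HdR HB M
  have hG : TClosed (Gen M) := a_genclosed.1 M
  by_contra hx0
  have h1 : ∃ s, s * x ∉ rQ HdR HB M (𝟙_ A) := by
    by_contra hs
    push Not at hs
    exact hx0 (ring_core (K := QBar) p_nullst he (rQ HdR HB M (𝟙_ A)) (rQ_one c hss)
      (rQ_trans M (𝟙_ A)) _ hs)
  obtain ⟨s, hs⟩ := h1
  obtain ⟨Y, hY, η, τ, rfl⟩ := r_sym M s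
  -- split off the part of `Y` in the linear category of the dual
  obtain ⟨Y₀, Y₁, hY₀, hY₁, ⟨φ⟩⟩ := ss_splitsAlong HB FibreFunctor.finite hss (Lin (Nᘁ))
    (a_lincl.1 (Nᘁ)) Y hY
  have gD : Gen M (Nᘁ) := Gen.dual hN
  have gY₀ : Gen M Y₀ := by
    have : Mono (biprod.inl ≫ φ.inv : Y₀ ⟶ Y) := mono_comp _ _
    exact Gen.sub (biprod.inl ≫ φ.inv : Y₀ ⟶ Y) hY
  have gY₁ : Gen M Y₁ := by
    have : Mono (biprod.inr ≫ φ.inv : Y₁ ⟶ Y) := mono_comp _ _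
    exact Gen.sub (biprod.inr ≫ φ.inv : Y₁ ⟶ Y) hY
  rw [r_split HdR HB hG.toClosed hY gY₀ gY₁ φ η τ, add_mul] at hs
  have horth : Orthogonal (𝟙_ A) (N ⊗ Y₁) := by
    refine r_orth_unit HB hss (Gen.tensor hN gY₁) fun f => ?_
    let E := tensorLeftHomEquiv (𝟙_ A) N (Nᘁ) Y₁
    have hl : Lin (Nᘁ) (Nᘁ ⊗ 𝟙_ A) :=
      (a_lincl.1 (Nᘁ)).sub (ρ_ (Nᘁ)).hom (a_lincl.2.1 (Nᘁ))
    have h2 : E.symm f = E.symm 0 := by
      rw [hY₁ _ hl (E.symm f), hY₁ _ hl (E.symm 0)]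
    exact E.symm.injective h2
  have hY1Q : ∀ η' τ', asym HdR HB gY₁ η' τ' * x ∈ rQ HdR HB M (𝟙_ A) := by
    intro η' τ'
    refine Submodule.span_induction
      (p := fun y _ => asym HdR HB gY₁ η' τ' * y ∈ rQ HdR HB M (𝟙_ A)) ?_ ?_ ?_ ?_ hx
    · rintro _ ⟨ω, σ, rfl⟩
      rw [mul_comm, (a_algrel HdR HB (Gen M)).2.1 hN gY₁ (Gen.tensor hN gY₁)]
      exact ⟨_, _, _, _, horth, rfl⟩
    · rw [mul_zero]
      exact Submodule.zero_mem _
    · intro a b _ _ ha hb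
      rw [mul_add]
      exact Submodule.add_mem _ ha hb
    · intro a b _ hb
      rw [mul_smul_comm]
      exact Submodule.smul_mem _ _ hb
  have h3 : asym HdR HB gY₀ ((HdR.map (φ.hom ≫ biprod.fst)).hom η)
      (τ ∘ₗ (HB.map (biprod.inl ≫ φ.inv)).hom) * x ∉ rQ HdR HB M (𝟙_ A) :=
    fun h4 => hs (Submodule.add_mem _ h4 (hY1Q _ _))
  have h4 : asym HdR HB gY₀ ((HdR.map (φ.hom ≫ biprod.fst)).hom η)
      (τ ∘ₗ (HB.map (biprod.inl ≫ φ.inv)).hom) ∈ fw HdR HB gD :=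
    a_fwlin HdR HB hG.toClosed gY₀ gD hY₀ (Submodule.subset_span ⟨_, _, rfl⟩)
  set s₀ := asym HdR HB gY₀ ((HdR.map (φ.hom ≫ biprod.fst)).hom η)
      (τ ∘ₗ (HB.map (biprod.inl ≫ φ.inv)).hom) with hs₀
  have h5 : s₀ * x ∈ fw HdR HB (Gen.tensor hN gD) := by
    rw [(a_fwprod HdR HB).1 hN gD (Gen.tensor hN gD), mul_comm]
    exact Submodule.mul_mem_mul hx h4
  obtain ⟨V₀, V₁, hV₀, hV₁, ⟨ψ⟩⟩ := ss_splits HB (M₀ := 𝟙_ A) hss (N ⊗ Nᘁ) (Gen.tensor hN gD)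
  have hmono : Mono (biprod.inr ≫ ψ.inv : V₁ ⟶ N ⊗ Nᘁ) := mono_comp _ _
  have gV₀ : Gen M V₀ := a_genclosed.2.2.2 M (𝟙_ A) V₀ Gen.unit hV₀
  have gV₁ : Gen M V₁ := Gen.sub (biprod.inr ≫ ψ.inv : V₁ ⟶ N ⊗ Nᘁ) (Gen.tensor hN gD)
  have h6 : ∃ (a : QBar) (w : PerAlg HdR HB (Gen M)), w ∈ fw HdR HB gV₁ ∧
      s₀ * x = algebraMap QBar _ a + w := by
    refine Submodule.span_induction
      (p := fun y _ => ∃ (a : QBar) (w : PerAlg HdR HB (Gen M)), w ∈ fw HdR HB gV₁ ∧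
        y = algebraMap QBar _ a + w) ?_ ?_ ?_ ?_ h5
    · rintro _ ⟨ω, σ, rfl⟩
      obtain ⟨a, ha⟩ := r_scalar hG hV₀ gV₀
        ((HdR.map (ψ.hom ≫ biprod.fst)).hom ω) (σ ∘ₗ (HB.map (biprod.inl ≫ ψ.inv)).hom)
      refine ⟨a, _, Submodule.subset_span ⟨(HdR.map (ψ.hom ≫ biprod.snd)).hom ω,
        σ ∘ₗ (HB.map (biprod.inr ≫ ψ.inv)).hom, rfl⟩, ?_⟩
      rw [← ha]
      exact r_split HdR HB hG.toClosed (Gen.tensor hN gD) gV₀ gV₁ ψ ω σ
    · exact ⟨0, 0, Submodule.zero_mem _, by rw [map_zero, add_zero]⟩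
    · rintro _ _ _ _ ⟨a, w, hw, rfl⟩ ⟨a', w', hw', rfl⟩
      refine ⟨a + a', w + w', Submodule.add_mem _ hw hw', ?_⟩
      rw [map_add]
      ring
    · rintro b _ _ ⟨a, w, hw, rfl⟩
      refine ⟨b * a, b • w, Submodule.smul_mem _ _ hw, ?_⟩
      rw [map_mul, smul_add, Algebra.smul_def b (algebraMap QBar (PerAlg HdR HB (Gen M)) a)]
  obtain ⟨a, w, hw, h7⟩ := h6
  have hwQ : w ∈ rQ HdR HB M (𝟙_ A) := by
    have h8 : fw HdR HB gV₁ ≤ rQ HdR HB M (𝟙_ A) := by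
      rw [fw, Submodule.span_le]
      rintro _ ⟨ω, σ, rfl⟩
      exact ⟨V₁, gV₁, ω, σ, hV₁, rfl⟩
    exact h8 hw
  have ha0 : a ≠ 0 := by
    rintro rfl
    rw [map_zero, zero_add] at h7
    exact h3 (by rw [h7]; exact hwQ)
  have h8 := congrArg (c.evAlg (Gen M)) h7
  rw [map_mul, h0, mul_zero, map_add, AlgHom.commutes] at h8
  have h9 : c.evAlg (Gen M) w ∈ Submodule.span QBar (c.Per V₁) := by
    rw [← a_fwev c gV₁]
    exact ⟨w, hw, rfl⟩
  apply h V₁ (biprod.inr ≫ ψ.inv) hmono (hV₁ _ Gen.unit).1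
  have h10 : (1 : ℂ) = (-a⁻¹ : QBar) • c.evAlg (Gen M) w := by
    have h11 : c.evAlg (Gen M) w = - algebraMap QBar ℂ a := by linear_combination -h8
    rw [h11, Algebra.smul_def, map_neg, map_inv₀, neg_mul_neg, inv_mul_cancel₀]
    intro h12
    exact ha0 ((algebraMap QBar ℂ).injective (by rw [h12, map_zero]))
  rw [h10]
  exact Submodule.smul_mem _ _ h9

/-- The local criterion: the periods of `N` are as independent as expected if `1` is not a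
combination of periods of the part of `N ⊗ N^∨` without invariants. -/
theorem r_localdim (c : Comparison HdR HB) {M : A} (hss : SemisimpleGen M) {N : A}
    (hN : Gen M N)
    (h : ∀ (W : A) (i : W ⟶ N ⊗ Nᘁ), Mono i → (∀ f : 𝟙_ A ⟶ W, f = 0) →
      (1 : ℂ) ∉ Submodule.span QBar (c.Per W)) :
    independent c N = expected HB N := by
  have h1 := a_fwev c hN
  have h2 := a_fwdim c (a_genclosed.1 M) hN
  have hfin := a_fwfin HdR HB hN
  rw [independent, expected, ← h1, ← h2]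
  exact finrank_map_of_inj _ _ (fun x hx hx0 => r_localB c hss hN h x hx hx0)

end

end Pool.Agent.Lib.MP_ae0f86_nt
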