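import Pool.Agent.Lib.MP_ae0f86_nt.R.FinC
import Pool.Agent.Lib.MP_ae0f86_nt.R.LocalB

/-!
# MP_ae0f86_nt : the transcendence criterion, assembly
-/

set_option autoImplicit false

universe w v u

open CategoryTheory CategoryTheory.Limits Opposite MonoidalCategory

namespace Pool.Agent.Lib.MP_ae0f86_nt

noncomputable section

attribute [local instance] CategoryTheory.Abelian.hasFiniteBiproducts

variable {A : Type u} [Category.{v} A] [Abelian A] [Linear ℚ A] [MonoidalCategory A]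
  [SymmetricCategory A] [RigidCategory A] {HdR : A ⥤ ModuleCat.{0} QBar}
  {HB : A ⥤ ModuleCat.{0} ℚ} [FibreFunctor HdR] [FibreFunctor HB]

/-- Q1 implies that `1` is not a combination of periods of an object without invariants. -/
theorem r_one_not (c : Comparison HdR HB) {M : A} (hss : SemisimpleGen M)
    (hpc : PeriodConjecture c M) {W : A} (hW : Gen M W) (hf : ∀ f : 𝟙_ A ⟶ W, f = 0) :
    (1 : ℂ) ∉ Submodule.span QBar (c.Per W) := by
  intro h
  rw [← a_fwev c hW] at h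
  obtain ⟨w, hw, hw1⟩ := h
  have h1 : w = 1 := (a_q1 c M).1 hpc (by
    rw [map_one]
    exact hw1)
  have h2 : fw HdR HB hW ≤ rQ HdR HB M (𝟙_ A) := by
    rw [fw, Submodule.span_le]
    rintro _ ⟨ω, σ, rfl⟩
    exact ⟨W, hW, ω, σ, r_orth_unit HB hss hW hf, rfl⟩
  exact rQ_one c hss (h1 ▸ h2 hw)

/-- The powers of `fw T` are increasing. -/
theorem r_pow_mono {K R : Type*} [Field K] [CommRing R] [Algebra K R] (V : Submodule K R)
    (h1 : (1 : R) ∈ V) {m n : ℕ} (hmn : m ≤ n) : V ^ m ≤ V ^ n := by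
  obtain ⟨k, rfl⟩ := Nat.exists_eq_add_of_le hmn
  induction k with
  | zero => exact le_rfl
  | succ k ih =>
    refine (ih (by omega)).trans ?_
    rw [← add_assoc, pow_succ]
    intro x hx
    have := Submodule.mul_mem_mul hx h1
    rwa [mul_one] at this

theorem r_tensor_crit (c : Comparison HdR HB) {M T : A} (hss : SemisimpleGen M)
    (hT : Gen M T) (hM : Gen T M) (h1 : Lin T (𝟙_ A)) :
    PeriodConjecture c M ↔ ∃ᶠ n in Filter.atTop, ∀ (W : A) (i : W ⟶ tpow T n ⊗ (tpow T n)ᘁ),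
      Mono i → (∀ f : 𝟙_ A ⟶ W, f = 0) → (1 : ℂ) ∉ Submodule.span QBar (c.Per W) := by
  have gc : S_genclosed (A := A) := a_genclosed
  have hG : Gen M = Gen T := by
    funext N
    exact propext ⟨fun h => gc.2.2.2 T M N hM h, fun h => gc.2.2.2 M T N hT h⟩
  have gTn : ∀ n, Gen M (tpow T n) := fun n => gc.2.2.2 M T _ hT (genpow_mem T n)
  constructor
  · intro hpc
    refine Filter.Frequently.of_forall fun n W i hi hf => ?_
    exact r_one_not c hss hpc (Gen.sub i (Gen.tensor (gTn n) (Gen.dual (gTn n)))) hf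
  · intro h
    rw [a_q1 c M, injective_iff_map_eq_zero]
    intro x hx
    have key : ∀ n, ∃ m, n ≤ m ∧ ∀ y ∈ fw HdR HB (gTn m), c.evAlg (Gen M) y = 0 → y = 0 := by
      intro n
      obtain ⟨m, hm, hm2⟩ := (Filter.frequently_atTop.1 h) n
      exact ⟨m, hm, fun y hy hy0 => r_localB c hss (gTn m) hm2 y hy hy0⟩
    -- transport to `Gen T`
    revert x
    have main : ∀ (S : A → Prop) (hS : S = Gen T) (gS : ∀ n, S (tpow T n)),
        (∀ n, ∃ m, n ≤ m ∧ ∀ y ∈ fw HdR HB (gS m), c.evAlg S y = 0 → y = 0) →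
        ∀ x : PerAlg HdR HB S, c.evAlg S x = 0 → x = 0 := by
      intro S hS gS hk x hx
      subst hS
      obtain ⟨hone, ⟨δ, hδ, -, hloc⟩, hpow⟩ := a_fwgen2 HdR HB T h1
      obtain ⟨m, n, hmn⟩ := hloc x
      obtain ⟨l, hl, hl2⟩ := hk n
      have e1 : δ ^ m * x ∈ fw HdR HB (gS l) := by
        have e2 : fw HdR HB (gS l) = (fw HdR HB (S := Gen T) (W := T) Gen.base) ^ l := hpow l
        rw [e2]
        exact r_pow_mono _ hone hl hmn
      have e3 := hl2 _ e1 (by rw [map_mul, hx, mul_zero])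
      exact ((hδ.pow m).mul_right_eq_zero).1 e3
    exact main (Gen M) hG gTn key

/-- The relative criterion. -/
theorem relativeCriterion (c : Comparison HdR HB) (M M₀ : A) (hM : Gen M M₀)
    (hs : SplitsOver M M₀) :
    (PeriodConjecture c M ↔ PeriodConjecture c M₀ ∧
      ∀ W : A, Gen M W → Orthogonal M₀ W → ∀ N : A, Gen M₀ N →
        ∀ z ∈ c.Per W, z ∈ c.Per N → z = 0) ∧
    ((DimensionFormula c M ∧ components HdR HB M = components HdR HB M₀) ↔
      DimensionFormula c M₀ ∧ ∀ W : A, Gen M W → Orthogonal M₀ W → ∀ N : A, Gen M₀ N →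
        ∀ z ∈ c.Per W, z ∈ c.Per N → z = 0) := by
  have h1 := r_rel c hM hs
  refine ⟨?_, h1⟩
  constructor
  · intro h
    have h2 := (r_pc c M).1 h
    have h3 : PeriodConjecture c M₀ := by
      rw [a_q1 c M₀]
      obtain ⟨j, hj, -, hje, -⟩ := r_setup (HdR := HdR) (HB := HB) c hM
      intro x y hxy
      apply hj
      apply (a_q1 c M).1 h
      rw [hje, hje, hxy]
    have h4 := (r_pc c M₀).1 h3
    exact ⟨h3, (h1.1 ⟨h2.1, by rw [h2.2, h4.2]⟩).2⟩
  · rintro ⟨h, h'⟩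
    have h4 := (r_pc c M₀).1 h
    have h5 := h1.2 ⟨h4.1, h'⟩
    exact (r_pc c M).2 ⟨h5.1, by rw [h5.2, h4.2]⟩

/-- The transcendence criterion. -/
theorem transcendenceCriterion (c : Comparison HdR HB) (M : A) (hss : SemisimpleGen M) :
    (∀ T : A, Gen M T → Gen T M → Lin T (𝟙_ A) → List.TFAE [
      PeriodConjecture c M,
      ∀ W : A, Gen M W → (∀ f : 𝟙_ A ⟶ W, f = 0) →
        ∀ z ∈ c.Per W, z ≠ 0 → Transcendental ℚ z,
      ∃ᶠ n in Filter.atTop, ∀ (W : A) (i : W ⟶ tpow T n ⊗ (tpow T n)ᘁ), Mono i →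
        (∀ f : 𝟙_ A ⟶ W, f = 0) → (1 : ℂ) ∉ Submodule.span QBar (c.Per W)]) ∧
    (∀ N : A, Gen M N → (∀ (W : A) (i : W ⟶ N ⊗ Nᘁ), Mono i → (∀ f : 𝟙_ A ⟶ W, f = 0) →
      (1 : ℂ) ∉ Submodule.span QBar (c.Per W)) → independent c N = expected HB N) ∧
    (DimensionFormula c M ↔ ∀ W : A, Gen M W →
      (∀ (F : A) (i : F ⟶ W), Mono i → ringKrullDim (PerAlg HB HB (Gen F)) = 0 → IsZero F) →
      ∀ z ∈ c.Per W, z ≠ 0 → Transcendental ℚ z) := by
  refine ⟨fun T hT hM h1 => ?_, fun N hN h => r_localdim c hss hN h, r_dimcrit c hss⟩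
  tfae_have 1 ↔ 2 := r_q1 c hss
  tfae_have 1 ↔ 3 := r_tensor_crit c hss hT hM h1
  tfae_finish

end

end Pool.Agent.Lib.MP_ae0f86_nt
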