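import Pool.Agent.Lib.MP_ae0f86_nt.R.Q1

/-!
# MP_ae0f86_nt : the transcendence criterion, local form

A vanishing period of `N` which does not vanish for a trivial reason gives a nonzero algebraic
period of a subobject of `N ⊗ N^∨` without invariants.
-/

set_option autoImplicit false

universe w v u

open CategoryTheory CategoryTheory.Limits Opposite MonoidalCategory

namespace Pool.Agent.Lib.MP_ae0f86_nt

noncomputable section

attribute [local instance] CategoryTheory.Abelian.hasFiniteBiproducts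

variable {A : Type u} [Category.{v} A] [Abelian A] [Linear ℚ A] [MonoidalCategory A]
  [SymmetricCategory A] [RigidCategory A] {HdR : A ⥤ ModuleCat.{0} QBar}
  {HB : A ⥤ ModuleCat.{0} ℚ} [FibreFunctor HdR] [FibreFunctor HB]

theorem rQ_one (c : Comparison HdR HB) {M : A} (hss : SemisimpleGen M) :
    (1 : PerAlg HdR HB (Gen M)) ∉ rQ HdR HB M (𝟙_ A) := by
  intro h
  have h1 : (1 : PerAlg HdR HB (Gen M)) =
      asym HdR HB (a_genclosed.2.2.2 M (𝟙_ A) (𝟙_ A) Gen.unit Gen.unit) FibreFunctor.one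
        (rChi HB) := ((a_algrel HdR HB (Gen M)).2.2.1 _ _ rChi_one).symm
  rw [h1] at h
  have h2 := rQ_disj (Gen.unit : Gen M (𝟙_ A)) (ss_splits HB hss)
    (Gen.unit : Gen (𝟙_ A) (𝟙_ A)) FibreFunctor.one (rChi HB) h
  rw [← h1] at h2
  have h3 := congrArg (c.evAlg (Gen M)) h2
  rw [map_one, map_zero] at h3
  exact one_ne_zero h3

theorem r_local (c : Comparison HdR HB) {M : A} (hss : SemisimpleGen M) {N : A} (hN : Gen M N)
    (h : ∀ (W : A) (i : W ⟶ N ⊗ Nᘁ), Mono i → (∀ f : 𝟙_ A ⟶ W, f = 0) →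
      ∀ z ∈ c.Per W, z ≠ 0 → Transcendental ℚ z)
    (ω : HdR.obj N) (σ : Module.Dual ℚ (HB.obj N)) (h0 : c.per N ω σ = 0) :
    asym HdR HB hN ω σ = 0 := by
  have hac : IsAlgClosed QBar := (algebraicClosure.isAlgClosure ℚ ℂ).isAlgClosed
  have hft := a_fintype HdR HB M
  obtain ⟨r, e, he⟩ := a_pdec HdR HB M
  have hG : TClosed (Gen M) := a_genclosed.1 M
  by_contra hx
  have h1 : ∃ s, s * asym HdR HB hN ω σ ∉ rQ HdR HB M (𝟙_ A) := by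
    by_contra hs
    push Not at hs
    exact hx (ring_core (K := QBar) p_nullst he (rQ HdR HB M (𝟙_ A)) (rQ_one c hss)
      (rQ_trans M (𝟙_ A)) _ hs)
  obtain ⟨s, hs⟩ := h1
  obtain ⟨Y, hY, η, τ, rfl⟩ := r_sym M s
  -- split off the part of `Y` in the linear category of the dual
  obtain ⟨Y₀, Y₁, hY₀, hY₁, ⟨φ⟩⟩ := ss_splitsAlong HB FibreFunctor.finite hss (Lin (Nᘁ))
    (a_lincl.1 (Nᘁ)) Y hY
  have gD : Gen M (Nᘁ) := Gen.dual hN
  have gY₀ : Gen M Y₀ := by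
    have : Mono (biprod.inl ≫ φ.inv : Y₀ ⟶ Y) := mono_comp _ _
    exact Gen.sub (biprod.inl ≫ φ.inv : Y₀ ⟶ Y) hY
  have gY₁ : Gen M Y₁ := by
    have : Mono (biprod.inr ≫ φ.inv : Y₁ ⟶ Y) := mono_comp _ _
    exact Gen.sub (biprod.inr ≫ φ.inv : Y₁ ⟶ Y) hY
  rw [r_split HdR HB hG.toClosed hY gY₀ gY₁ φ η τ, add_mul] at hs
  have hY1Q : ∀ η' τ', asym HdR HB gY₁ η' τ' * asym HdR HB hN ω σ ∈ rQ HdR HB M (𝟙_ A) := by
    intro η' τ'
    rw [mul_comm, (a_algrel HdR HB (Gen M)).2.1 hN gY₁ (Gen.tensor hN gY₁)]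
    refine ⟨_, _, _, _, ?_, rfl⟩
    refine r_orth_unit HB hss (Gen.tensor hN gY₁) fun f => ?_
    let E := tensorLeftHomEquiv (𝟙_ A) N (Nᘁ) Y₁
    have hl : Lin (Nᘁ) (Nᘁ ⊗ 𝟙_ A) :=
      (a_lincl.1 (Nᘁ)).sub (ρ_ (Nᘁ)).hom (a_lincl.2.1 (Nᘁ))
    have h2 : E.symm f = E.symm 0 := by
      rw [hY₁ _ hl (E.symm f), hY₁ _ hl (E.symm 0)]
    exact E.symm.injective h2
  have h3 : ∃ (η' : HdR.obj (Nᘁ)) (τ' : Module.Dual ℚ (HB.obj (Nᘁ))),
      asym HdR HB gD η' τ' * asym HdR HB hN ω σ ∉ rQ HdR HB M (𝟙_ A) := by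
    by_contra hall
    push Not at hall
    apply hs
    refine Submodule.add_mem _ ?_ (hY1Q _ _)
    have h4 : asym HdR HB gY₀ ((HdR.map (φ.hom ≫ biprod.fst)).hom η)
        (τ ∘ₗ (HB.map (biprod.inl ≫ φ.inv)).hom) ∈ fw HdR HB gD :=
      a_fwlin HdR HB hG.toClosed gY₀ gD hY₀ (Submodule.subset_span ⟨_, _, rfl⟩)
    refine Submodule.span_induction
      (p := fun y _ => y * asym HdR HB hN ω σ ∈ rQ HdR HB M (𝟙_ A)) ?_ ?_ ?_ ?_ h4
    · rintro _ ⟨η', τ', rfl⟩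
      exact hall η' τ'
    · rw [zero_mul]
      exact Submodule.zero_mem _
    · intro x y _ _ hx hy
      rw [add_mul]
      exact Submodule.add_mem _ hx hy
    · intro a x _ hx
      rw [smul_mul_assoc]
      exact Submodule.smul_mem _ _ hx
  obtain ⟨η', τ', h3⟩ := h3
  rw [mul_comm, (a_algrel HdR HB (Gen M)).2.1 hN gD (Gen.tensor hN gD)] at h3
  obtain ⟨V₀, V₁, hV₀, hV₁, ⟨ψ⟩⟩ := ss_splits HB (M₀ := 𝟙_ A) hss (N ⊗ Nᘁ) (Gen.tensor hN gD)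
  have hmono : Mono (biprod.inr ≫ ψ.inv : V₁ ⟶ N ⊗ Nᘁ) := mono_comp _ _
  have gV₀ : Gen M V₀ := a_genclosed.2.2.2 M (𝟙_ A) V₀ Gen.unit hV₀
  have gV₁ : Gen M V₁ := Gen.sub (biprod.inr ≫ ψ.inv : V₁ ⟶ N ⊗ Nᘁ) (Gen.tensor hN gD)
  have h5 := r_split HdR HB hG.toClosed (Gen.tensor hN gD) gV₀ gV₁ ψ
    (FibreFunctor.mul N (Nᘁ) ω η') (tdual HB σ τ')
  obtain ⟨a, ha⟩ := r_scalar hG hV₀ gV₀
    ((HdR.map (ψ.hom ≫ biprod.fst)).hom (FibreFunctor.mul N (Nᘁ) ω η'))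
    (tdual HB σ τ' ∘ₗ (HB.map (biprod.inl ≫ ψ.inv)).hom)
  rw [ha] at h5
  have ha0 : a ≠ 0 := by
    rintro rfl
    rw [map_zero, zero_add] at h5
    apply h3
    rw [h5]
    exact ⟨V₁, gV₁, _, _, hV₁, rfl⟩
  have h6 := congrArg (c.evAlg (Gen M)) h5
  rw [← (a_algrel HdR HB (Gen M)).2.1 hN gD (Gen.tensor hN gD), map_mul, r_evAlg, h0, zero_mul,
    map_add, AlgHom.commutes, r_evAlg] at h6
  refine h V₁ (biprod.inr ≫ ψ.inv) hmono (hV₁ _ Gen.unit).1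
    (c.per V₁ ((HdR.map (ψ.hom ≫ biprod.snd)).hom (FibreFunctor.mul N (Nᘁ) ω η'))
      (tdual HB σ τ' ∘ₗ (HB.map (biprod.inr ≫ ψ.inv)).hom)) ⟨_, _, rfl⟩ ?_ ?_
  · intro h7
    have h8 : c.per V₁ ((HdR.map (ψ.hom ≫ biprod.snd)).hom (FibreFunctor.mul N (Nᘁ) ω η'))
      (tdual HB σ τ' ∘ₗ (HB.map (biprod.inr ≫ ψ.inv)).hom) = 0 := h7
    rw [h8, add_zero] at h6
    exact ha0 ((algebraMap QBar ℂ).injective (by rw [← h6, map_zero]))
  · have h8 : c.per V₁ ((HdR.map (ψ.hom ≫ biprod.snd)).hom (FibreFunctor.mul N (Nᘁ) ω η'))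
      (tdual HB σ τ' ∘ₗ (HB.map (biprod.inr ≫ ψ.inv)).hom) = algebraMap QBar ℂ (-a) := by
      rw [map_neg]
      linear_combination -h6
    show IsAlgebraic ℚ (c.per V₁ ((HdR.map (ψ.hom ≫ biprod.snd)).hom
      (FibreFunctor.mul N (Nᘁ) ω η')) (tdual HB σ τ' ∘ₗ (HB.map (biprod.inr ≫ ψ.inv)).hom))
    rw [h8]
    exact mem_algebraicClosure_iff.1 (-a).2

end

end Pool.Agent.Lib.MP_ae0f86_nt
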