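import Pool.Agent.Lib.MP_ae0f86_nt.R.Unit

/-!
# MP_ae0f86_nt : the transcendence criterion for Q1
-/

set_option autoImplicit false

universe w v u

open CategoryTheory CategoryTheory.Limits Opposite MonoidalCategory

namespace Pool.Agent.Lib.MP_ae0f86_nt

noncomputable section

attribute [local instance] CategoryTheory.Abelian.hasFiniteBiproducts

variable {A : Type u} [Category.{v} A] [Abelian A] [Linear ℚ A] [MonoidalCategory A]
  [SymmetricCategory A] [RigidCategory A] {HdR : A ⥤ ModuleCat.{0} QBar}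
  {HB : A ⥤ ModuleCat.{0} ℚ} [FibreFunctor HdR] [FibreFunctor HB]

/-- The functional on `HB(1)` with value `1` at `one`. -/
def rChi (HB : A ⥤ ModuleCat.{0} ℚ) [FibreFunctor HB] : Module.Dual ℚ (HB.obj (𝟙_ A)) :=
  (coord HB).toLinearMap

omit [Linear ℚ A] [RigidCategory A] in
theorem rChi_one : rChi HB (FibreFunctor.one : HB.obj (𝟙_ A)) = 1 := by
  have h := (coord HB).apply_symm_apply 1
  have h2 : (coord HB).symm 1 = (FibreFunctor.one : HB.obj (𝟙_ A)) := one_smul ℚ _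
  rw [h2] at h
  exact h

/-- The symbols of the objects of `⟨1⟩` are scalars. -/
theorem r_scalar {S : A → Prop} (hS : TClosed S) {N : A} (h1N : Gen (𝟙_ A) N) (hN : S N)
    (ω : HdR.obj N) (σ : Module.Dual ℚ (HB.obj N)) :
    ∃ a : QBar, asym HdR HB hN ω σ = algebraMap QBar (PerAlg HdR HB S) a := by
  obtain ⟨φ, hφ⟩ := (r_gen_unit HB h1N).2 σ
  obtain ⟨hadd, hsmul, haddr, hsmulr, hfun, hz, hz'⟩ := a_arel HdR HB S
  have h1 : σ = rChi HB ∘ₗ (HB.map φ).hom := by
    ext x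
    rw [LinearMap.comp_apply, hφ, map_smul, rChi_one, smul_eq_mul, mul_one]
  obtain ⟨a, ha⟩ := (FibreFunctor.one_bij (H := HdR)).2 ((HdR.map φ).hom ω)
  refine ⟨a, ?_⟩
  have h2 : (HdR.map φ).hom ω = a • (FibreFunctor.one : HdR.obj (𝟙_ A)) := ha.symm
  rw [h1, hfun hN hS.unit φ ω (rChi HB), h2, hsmul,
    (a_algrel HdR HB S).2.2.1 hS.unit _ rChi_one, Algebra.algebraMap_eq_smul_one]

/-- The period algebra of `⟨1⟩` is `QBar`. -/
theorem r_unit_scalar (x : PerAlg HdR HB (Gen (𝟙_ A))) :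
    ∃ a : QBar, x = algebraMap QBar _ a := by
  obtain ⟨N, hN, ω, σ, rfl⟩ := r_sym (HdR := HdR) (HB := HB) (𝟙_ A) x
  exact r_scalar (a_genclosed.1 (𝟙_ A)) hN hN ω σ

theorem r_unit_pc (c : Comparison HdR HB) : PeriodConjecture c (𝟙_ A) := by
  rw [a_q1 c (𝟙_ A), injective_iff_map_eq_zero]
  intro x hx
  obtain ⟨a, rfl⟩ := r_unit_scalar x
  rw [AlgHom.commutes] at hx
  have h1 : a = 0 := (algebraMap QBar ℂ).injective (by rw [hx, map_zero])
  rw [h1, map_zero]

omit [Linear ℚ A] in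
theorem r_pc (c : Comparison HdR HB) (M : A) :
    PeriodConjecture c M ↔ DimensionFormula c M ∧ components HdR HB M = 1 := by
  obtain ⟨r, e, he⟩ := a_pdec HdR HB M
  obtain ⟨-, h2, h3⟩ := d_comps (PerAlg HdR HB (Gen M)) r e he
  unfold PeriodConjecture
  rw [h3, components, h2]
  exact and_comm

omit [Linear ℚ A] [RigidCategory A] in
/-- Every algebraic number is a period of the unit. -/
theorem r_alg_period (c : Comparison HdR HB) (a : QBar) :
    (a : ℂ) ∈ c.Per (𝟙_ A) := by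
  refine ⟨a • FibreFunctor.one, rChi HB, ?_⟩
  show c.per (𝟙_ A) (a • FibreFunctor.one) (rChi HB) = _
  rw [map_smul, LinearMap.smul_apply, c.per_one _ rChi_one, Algebra.smul_def, mul_one]
  rfl

/-- The criterion for Q1. -/
theorem r_q1 (c : Comparison HdR HB) {M : A} (hss : SemisimpleGen M) :
    PeriodConjecture c M ↔ ∀ W : A, Gen M W → (∀ f : 𝟙_ A ⟶ W, f = 0) →
      ∀ z ∈ c.Per W, z ≠ 0 → Transcendental ℚ z := by
  have h1 := r_rel c (Gen.unit : Gen M (𝟙_ A)) (ss_splits HB hss)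
  have h2 := (r_pc c (𝟙_ A)).1 (r_unit_pc c)
  rw [h2.2] at h1
  rw [r_pc c M, h1]
  constructor
  · rintro ⟨-, h⟩ W hW hf z hz hz0 halg
    apply hz0
    have ho : Orthogonal (𝟙_ A) W := r_orth_unit HB hss hW hf
    have h3 : z ∈ algebraicClosure ℚ ℂ := mem_algebraicClosure_iff.2 halg
    exact h W hW ho (𝟙_ A) Gen.unit z hz (r_alg_period c ⟨z, h3⟩)
  · intro h
    refine ⟨h2.1, fun W hW ho N hN z hz hz' => ?_⟩
    by_contra hz0
    apply h W hW (ho _ Gen.unit).1 z hz hz0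
    obtain ⟨ω, σ, hωσ⟩ := hz'
    obtain ⟨a, ha⟩ := r_unit_scalar (asym HdR HB hN ω σ)
    have h3 := congrArg (c.evAlg (Gen (𝟙_ A))) ha
    rw [r_evAlg, AlgHom.commutes] at h3
    have h4 : z = algebraMap QBar ℂ a := by
      rw [← hωσ]
      exact h3
    rw [h4]
    exact mem_algebraicClosure_iff.1 a.2

end

end Pool.Agent.Lib.MP_ae0f86_nt
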