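import Pool.Agent.Lib.MP_ae0f86_nt.R.Comp

/-!
# MP_ae0f86_nt : the transcendence criterion, relative form
-/

set_option autoImplicit false

universe w v u

open CategoryTheory CategoryTheory.Limits Opposite MonoidalCategory

namespace Pool.Agent.Lib.MP_ae0f86_nt

noncomputable section

attribute [local instance] CategoryTheory.Abelian.hasFiniteBiproducts

variable {A : Type u} [Category.{v} A] [Abelian A] [MonoidalCategory A] [SymmetricCategory A]

section Map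

omit [MonoidalCategory A] [SymmetricCategory A] in
theorem r_fpMap_sym {K : Type} [Field K] (H : A ⥤ ModuleCat.{0} K)
    (HB : A ⥤ ModuleCat.{0} ℚ) {S S' : A → Prop} (h : ∀ N, S N → S' N) {N : A} (hN : S N)
    (ω : H.obj N) (σ : Module.Dual ℚ (HB.obj N)) :
    fpMap H HB h (sym H HB hN ω σ) = sym H HB (h N hN) ω σ := by
  unfold fpMap sym
  rw [Submodule.mapQ_apply]
  simp [symbMap]

theorem r_evAlg {K : Type} [Field K] [Algebra K ℂ]
    {HdR : A ⥤ ModuleCat.{0} K}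
    {HB : A ⥤ ModuleCat.{0} ℚ} [FibreFunctor HdR] [FibreFunctor HB] (c : Comparison HdR HB)
    (S : A → Prop) {N : A} (hN : S N) (ω : HdR.obj N) (σ : Module.Dual ℚ (HB.obj N)) :
    c.evAlg S (asym HdR HB hN ω σ) = c.per N ω σ :=
  MvPolynomial.aeval_X (R := K) (fun s : Symb HdR HB S => c.per s.N s.ω s.σ) ⟨N, hN, ω, σ⟩

/-- The homomorphism `PerAlg S → PerAlg S'` for `S ⊆ S'`. -/
theorem r_map {K : Type} [Field K] (H : A ⥤ ModuleCat.{0} K)
    (HB : A ⥤ ModuleCat.{0} ℚ) [FibreFunctor H] [FibreFunctor HB]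
    {S S' : A → Prop} (h : ∀ N, S N → S' N) :
    ∃ j : PerAlg H HB S →ₐ[K] PerAlg H HB S', ∀ {N : A} (hN : S N) (ω : H.obj N)
      (σ : Module.Dual ℚ (HB.obj N)), j (asym H HB hN ω σ) = asym H HB (h N hN) ω σ := by
  obtain ⟨a1, a2, a3, a4, a5, -, -⟩ := a_arel H HB S'
  obtain ⟨-, b1, b2, -⟩ := a_algrel H HB S'
  let P : Pt H HB S (PerAlg H HB S') :=
    { p := fun hN ω σ => asym H HB (h _ hN) ω σ
      add_left := fun hN ω ω' σ => a1 (h _ hN) ω ω' σ
      smul_left := fun hN a ω σ => a2 (h _ hN) a ω σ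
      add_right := fun hN ω σ σ' => a3 (h _ hN) ω σ σ'
      smul_right := fun hN q ω σ => a4 (h _ hN) q ω σ
      nat := fun hN hN' f ω σ' => a5 (h _ hN) (h _ hN') f ω σ'
      mul := fun hM hN hMN ω η σ τ => (b1 (h _ hM) (h _ hN) (h _ hMN) ω η σ τ).symm
      one := fun h1 σ hσ => b2 (h _ h1) σ hσ }
  obtain ⟨f, hf⟩ := p_points H HB S (PerAlg H HB S') P
  exact ⟨f, fun hN ω σ => hf hN ω σ⟩

theorem r_sub_equiv {K : Type} {R R' : Type*} [Field K] [CommRing R] [CommRing R']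
    [Algebra K R] [Algebra K R'] (j : R' →ₐ[K] R) (hj : Function.Injective j)
    (τ : R ≃ₐ[K] R) (h1 : ∀ a, τ (j a) ∈ j.range) (h2 : ∀ a, ∃ b, j a = τ (j b)) :
    ∃ τ' : R' ≃ₐ[K] R', ∀ a, τ (j a) = j (τ' a) := by
  choose f hf using fun a => h1 a
  let F : R' →ₐ[K] R' := AlgHom.ofLinearMap
    { toFun := f
      map_add' := fun x y => hj (by
        have := hf (x + y)
        rw [map_add]
        erw [this, hf x, hf y]
        rw [map_add, map_add])
      map_smul' := fun k x => hj (by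
        have := hf (k • x)
        rw [RingHom.id_apply, map_smul]
        erw [this, hf x]
        rw [map_smul, map_smul]) }
    (hj (by
      have := hf 1
      show j (f 1) = j 1
      erw [this]
      rw [map_one, map_one]))
    (fun x y => hj (by
      have := hf (x * y)
      show j (f (x * y)) = j (f x * f y)
      rw [map_mul]
      erw [this, hf x, hf y]
      rw [map_mul, map_mul]))
  have hF : ∀ a, j (F a) = τ (j a) := fun a => hf a
  have hinj : Function.Injective F := by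
    intro a b hab
    have := congrArg j hab
    rw [hF, hF] at this
    exact hj (τ.injective this)
  have hsurj : Function.Surjective F := by
    intro a
    obtain ⟨b, hb⟩ := h2 a
    exact ⟨b, hj (by rw [hF, ← hb])⟩
  exact ⟨AlgEquiv.ofBijective F ⟨hinj, hsurj⟩, fun a => (hF a).symm⟩

end Map

variable [RigidCategory A] {HdR : A ⥤ ModuleCat.{0} QBar}
  {HB : A ⥤ ModuleCat.{0} ℚ} [FibreFunctor HdR] [FibreFunctor HB]

/-- Every element of the period algebra of `⟨M⟩` is the class of a symbol. -/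
theorem r_sym (M : A) (x : PerAlg HdR HB (Gen M)) : ∃ (N : A) (hN : Gen M N) (ω : HdR.obj N)
    (σ : Module.Dual ℚ (HB.obj N)), x = asym HdR HB hN ω σ := by
  have hG : TClosed (Gen M) := a_genclosed.1 M
  obtain ⟨y, rfl⟩ := (a_fpring HdR HB (Gen M) hG).2 x
  obtain ⟨N, hN, ω, σ, rfl⟩ := a_single HdR HB (Gen M) hG.toClosed y
  exact ⟨N, hN, ω, σ, (a_algrel HdR HB (Gen M)).1 hN ω σ⟩

theorem r_setup [Linear ℚ A] (c : Comparison HdR HB) {M M₀ : A} (hM : Gen M M₀) :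
    ∃ j : PerAlg HdR HB (Gen M₀) →ₐ[QBar] PerAlg HdR HB (Gen M), Function.Injective j ∧
      (∀ {N : A} (hN : Gen M₀ N) (ω : HdR.obj N) (σ : Module.Dual ℚ (HB.obj N)),
        j (asym HdR HB hN ω σ) = asym HdR HB (a_genclosed.2.2.2 M M₀ N hM hN) ω σ) ∧
      (∀ x, c.evAlg (Gen M) (j x) = c.evAlg (Gen M₀) x) ∧
      ∀ (r : ℕ) (e : Fin r → PerAlg HdR HB (Gen M)), Dec (PerAlg HdR HB (Gen M)) r e →
        ∀ i l, ∃ (τ : PerAlg HdR HB (Gen M) ≃ₐ[QBar] PerAlg HdR HB (Gen M))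
          (τ' : PerAlg HdR HB (Gen M₀) ≃ₐ[QBar] PerAlg HdR HB (Gen M₀)),
          τ (e i) = e l ∧ ∀ a, τ (j a) = j (τ' a) := by
  have hsub : ∀ N, Gen M₀ N → Gen M N := fun N hN => a_genclosed.2.2.2 M M₀ N hM hN
  obtain ⟨j, hj⟩ := r_map HdR HB hsub
  have hTc : TClosed (Gen M) := a_genclosed.1 M
  have hMc : TClosed (Gen M₀) := a_genclosed.1 M₀
  have hinj : Function.Injective j := by
    rw [injective_iff_map_eq_zero]
    intro x hx
    obtain ⟨y, rfl⟩ := (a_fpring HdR HB (Gen M₀) hMc).2 x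
    obtain ⟨N, hN, ω, σ, rfl⟩ := a_single HdR HB (Gen M₀) hMc.toClosed y
    rw [(a_algrel HdR HB (Gen M₀)).1 hN ω σ, hj hN ω σ,
      ← (a_algrel HdR HB (Gen M)).1 (hsub N hN) ω σ] at hx
    have h17 : sym HdR HB (hsub N hN) ω σ = 0 :=
      (a_fpring HdR HB (Gen M) hTc).1 (by rw [hx, map_zero])
    have hher : Function.Injective (fpMap HdR HB hsub) :=
      a_heredity HdR HB (FibreFunctor.finite (H := HB)) (Gen M₀) (Gen M) hsub hMc.toClosed
        hTc.toClosed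
    have h18 : sym HdR HB hN ω σ = 0 := by
      apply hher
      rw [r_fpMap_sym, h17, map_zero]
    rw [h18, map_zero]
  have hev : ∀ x, c.evAlg (Gen M) (j x) = c.evAlg (Gen M₀) x := by
    intro x
    obtain ⟨N, hN, ω, σ, hx1⟩ := r_sym M₀ x
    rw [hx1, hj hN ω σ, r_evAlg, r_evAlg]
  refine ⟨j, hinj, hj, hev, ?_⟩
  intro r e he i l
  have hfw : ∀ {N : A} (hN : Gen M₀ N), fw HdR HB (hsub N hN) ≤
      Subalgebra.toSubmodule j.range := by
    intro N hN
    rw [fw, Submodule.span_le]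
    rintro _ ⟨ω, σ, rfl⟩
    exact ⟨asym HdR HB hN ω σ, hj hN ω σ⟩
  obtain ⟨τ, hτ, hτfw⟩ := a_perm HdR HB M r e he i l
  have hmem : ∀ {N : A} (hN : Gen M₀ N) (ω : HdR.obj N) (σ : Module.Dual ℚ (HB.obj N)),
      asym HdR HB (hsub N hN) ω σ ∈ fw HdR HB (hsub N hN) :=
    fun hN ω σ => Submodule.subset_span ⟨ω, σ, rfl⟩
  obtain ⟨τ', hτ'⟩ := r_sub_equiv j hinj τ (by
    intro a
    obtain ⟨N, hN, ω, σ, ha⟩ := r_sym M₀ a
    rw [ha, hj hN ω σ]
    apply hfw hN
    rw [← hτfw (hsub N hN)]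
    exact ⟨_, hmem hN ω σ, rfl⟩) (by
    intro a
    obtain ⟨N, hN, ω, σ, ha⟩ := r_sym M₀ a
    have h19 := hmem hN ω σ
    rw [← hτfw (hsub N hN)] at h19
    obtain ⟨y, hy, hy2⟩ := h19
    obtain ⟨b, hb⟩ := hfw hN hy
    refine ⟨b, ?_⟩
    rw [ha, hj hN ω σ, ← hy2]
    show τ y = τ (j b)
    rw [← hb]
    rfl)
  exact ⟨τ, τ', hτ, hτ'⟩

/-- The dimension formula for `M` means that the evaluation is injective on one factor. -/
theorem r_dim (c : Comparison HdR HB) (M : A) (r : ℕ) (e : Fin r → PerAlg HdR HB (Gen M))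
    (he : Dec (PerAlg HdR HB (Gen M)) r e) (i0 : Fin r) (hi : c.evAlg (Gen M) (e i0) = 1) :
    DimensionFormula c M ↔ ∀ a, c.evAlg (Gen M) (e i0 * a) = 0 → e i0 * a = 0 := by
  have := a_fintype HdR HB M
  obtain ⟨-, g, t, hg, hgi, ht, -, htr⟩ := a_dims c M r e he
  have h1 : DimensionFormula c M ↔ (g : WithBot ℕ∞) = (t : WithBot ℕ∞) := by
    unfold DimensionFormula
    rw [hg, htr, map_natCast]
    rfl
  rw [h1]
  constructor
  · intro hgt
    exact (a_injdim QBar (PerAlg HdR HB (Gen M)) r e he ℂ (c.evAlg (Gen M)) i0 hi).2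
      (by rw [ht, (hgi i0).1, hgt])
  · intro hinj
    have hm := e_injdim2 d_decdom QBar (PerAlg HdR HB (Gen M)) r e he ℂ (c.evAlg (Gen M)) i0 hi
      hinj
    rw [ht, (hgi i0).1] at hm
    exact hm.symm

/-- The relative criterion. -/
theorem r_rel [Linear ℚ A] (c : Comparison HdR HB) {M M₀ : A} (hM : Gen M M₀)
    (hs : SplitsOver M M₀) :
    (DimensionFormula c M ∧ components HdR HB M = components HdR HB M₀) ↔
      (DimensionFormula c M₀ ∧ ∀ W : A, Gen M W → Orthogonal M₀ W → ∀ N : A, Gen M₀ N →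
        ∀ z ∈ c.Per W, z ∈ c.Per N → z = 0) := by
  have hac : IsAlgClosed QBar := (algebraicClosure.isAlgClosure ℚ ℂ).isAlgClosed
  obtain ⟨j, hj, hjs, hje, hauto⟩ := r_setup c hM
  obtain ⟨r, e, he⟩ := a_pdec HdR HB M
  obtain ⟨r', e', he'⟩ := a_pdec HdR HB M₀
  have := a_fintype HdR HB M
  have := a_fintype HdR HB M₀
  obtain ⟨i0, hi0⟩ := (d_evcut QBar (PerAlg HdR HB (Gen M)) r e he ℂ (c.evAlg (Gen M))).1
  obtain ⟨k0, hk0⟩ := (d_evcut QBar (PerAlg HdR HB (Gen M₀)) r' e' he' ℂ (c.evAlg (Gen M₀))).1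
  have hc1 : components HdR HB M = r := (d_comps (PerAlg HdR HB (Gen M)) r e he).2.1
  have hc2 : components HdR HB M₀ = r' := (d_comps (PerAlg HdR HB (Gen M₀)) r' e' he').2.1
  rw [r_dim c M r e he i0 hi0, r_dim c M₀ r' e' he' k0 hk0, hc1, hc2]
  have key := ringcrit (K := QBar) p_nullst e_abssub j hj he he' (rQ HdR HB M M₀)
    (by
      intro x
      obtain ⟨N, hN, ω, σ, q, hq, hx⟩ := rQ_dec hM hs x
      exact ⟨asym HdR HB hN ω σ, q, hq, by rw [hjs hN ω σ]; exact hx⟩)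
    (by
      intro a ha
      obtain ⟨N, hN, ω, σ, rfl⟩ := r_sym M₀ a
      rw [hjs hN ω σ] at ha ⊢
      exact rQ_disj hM hs hN ω σ ha)
    (by
      intro a q hq
      obtain ⟨N, hN, ω, σ, rfl⟩ := r_sym M₀ a
      rw [hjs hN ω σ]
      exact rQ_mul hM hN ω σ hq)
    (rQ_trans M M₀) (hauto r e he) (c.evAlg (Gen M)) i0 k0 hi0 (by rw [hje]; exact hk0)
  rw [key]
  refine and_congr ?_ ?_
  · simp only [hje]
  · constructor
    · rintro h W hW ho N hN z ⟨ω, σ, rfl⟩ ⟨ω', σ', hz⟩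
      have h1 := h (asym HdR HB hW ω σ) ⟨W, hW, ω, σ, ho, rfl⟩ (asym HdR HB hN ω' σ') (by
        rw [hje, r_evAlg, r_evAlg]
        exact hz.symm)
      rw [r_evAlg] at h1
      exact h1
    · rintro h _ ⟨W, hW, ω, σ, ho, rfl⟩ a ha
      obtain ⟨N, hN, ω', σ', rfl⟩ := r_sym M₀ a
      rw [hje, r_evAlg, r_evAlg] at ha
      rw [r_evAlg]
      exact h W hW ho N hN _ ⟨ω, σ, rfl⟩ ⟨ω', σ', ha.symm⟩

end

end Pool.Agent.Lib.MP_ae0f86_nt
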