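import Pool.Agent.Lib.MP_ae0f86_nt.R.Rel

/-!
# MP_ae0f86_nt : the transcendence criterion, semisimple categories
-/

set_option autoImplicit false

universe w v u

open CategoryTheory CategoryTheory.Limits Opposite MonoidalCategory

open scoped ZeroObject

namespace Pool.Agent.Lib.MP_ae0f86_nt

noncomputable section

attribute [local instance] CategoryTheory.Abelian.hasFiniteBiproducts

variable {A : Type u} [Category.{v} A] [Abelian A] [MonoidalCategory A] [SymmetricCategory A]
  [RigidCategory A]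

omit [SymmetricCategory A] in
theorem ss_iso {M : A} (hss : SemisimpleGen M) {N I : A} (hN : Gen M N) (i : I ⟶ N) [Mono i] :
    Nonempty (N ≅ I ⊞ cokernel i) := by
  obtain ⟨r, hr⟩ := hss N I i inferInstance hN
  let S : ShortComplex A := ShortComplex.mk i (cokernel.π i) (cokernel.condition i)
  have hS : S.Exact := ShortComplex.exact_cokernel i
  exact ⟨(ShortComplex.Splitting.ofExactOfRetraction S hS r hr
    (inferInstance : Epi (cokernel.π i))).isoBinaryBiproduct⟩

omit [SymmetricCategory A] in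
/-- An epimorphism of a semisimple category has a section. -/
theorem ss_section {M : A} (hss : SemisimpleGen M) {N I : A} (hN : Gen M N) (p : N ⟶ I) [Epi p] :
    ∃ s : I ⟶ N, s ≫ p = 𝟙 I := by
  obtain ⟨r, hr⟩ := hss N (kernel p) (kernel.ι p) inferInstance hN
  let S : ShortComplex A := ShortComplex.mk (kernel.ι p) p (kernel.condition p)
  have hS : S.Exact := ShortComplex.exact_kernel p
  let sp := ShortComplex.Splitting.ofExactOfRetraction S hS r hr (inferInstance : Epi p)
  exact ⟨sp.s, sp.s_g⟩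

omit [MonoidalCategory A] [SymmetricCategory A] [RigidCategory A] in
theorem ss_finrank (HB : A ⥤ ModuleCat.{0} ℚ) [HB.Additive] [HB.Faithful]
    [PreservesFiniteLimits HB] [PreservesFiniteColimits HB]
    (hf : ∀ M, Module.Finite ℚ (HB.obj M)) {N I : A} (i : I ⟶ N) [Mono i] (hi : i ≠ 0) :
    Module.finrank ℚ (HB.obj (cokernel i)) < Module.finrank ℚ (HB.obj N) := by
  have := hf N
  have hps : Function.Surjective (HB.map (cokernel.π i)).hom := by
    have : Epi (HB.map (cokernel.π i)) := inferInstance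
    exact (ModuleCat.epi_iff_surjective _).1 this
  have h1 := LinearMap.finrank_range_add_finrank_ker (HB.map (cokernel.π i)).hom
  rw [LinearMap.range_eq_top.2 hps, finrank_top] at h1
  have h2 : 0 < Module.finrank ℚ (LinearMap.ker (HB.map (cokernel.π i)).hom) := by
    rw [Nat.pos_iff_ne_zero]
    intro h0
    have h3 : LinearMap.ker (HB.map (cokernel.π i)).hom = ⊥ := Submodule.finrank_eq_zero.1 h0
    apply hi
    apply HB.map_injective
    rw [HB.map_zero]
    ext x
    have h4 : (HB.map i).hom x ∈ LinearMap.ker (HB.map (cokernel.π i)).hom := by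
      rw [LinearMap.mem_ker, ← LinearMap.comp_apply, ← ModuleCat.hom_comp, ← HB.map_comp,
        cokernel.condition, HB.map_zero]
      rfl
    rw [h3, Submodule.mem_bot] at h4
    exact h4
  omega

omit [SymmetricCategory A] in
/-- In the semisimple case, an object without nonzero morphisms from `⟨M₀⟩` is orthogonal to
`⟨M₀⟩`. -/
theorem ss_orth {M M₀ W : A} (hss : SemisimpleGen M) (hW : Gen M W)
    (h : ∀ N, Gen M₀ N → ∀ f : N ⟶ W, f = 0) : Orthogonal M₀ W := by
  intro N hN
  refine ⟨h N hN, fun g => ?_⟩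
  have hI : Gen M₀ (Abelian.image g) := Gen.sub (Abelian.image.ι g) hN
  obtain ⟨s, hs⟩ := ss_section hss hW (Abelian.factorThruImage g)
  have h1 : s = 0 := h _ hI s
  rw [h1, zero_comp] at hs
  have h2 : Abelian.factorThruImage g = 0 := by
    rw [← Category.comp_id (Abelian.factorThruImage g), ← hs, comp_zero]
  rw [← Abelian.image.fac g, h2, zero_comp]

omit [SymmetricCategory A] in
/-- In the semisimple case, every object can be split along a closed class. -/
theorem ss_splitsAlong (HB : A ⥤ ModuleCat.{0} ℚ) [HB.Additive] [HB.Faithful]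
    [PreservesFiniteLimits HB] [PreservesFiniteColimits HB]
    (hfin : ∀ M, Module.Finite ℚ (HB.obj M)) {M : A}
    (hss : SemisimpleGen M) (C : A → Prop) (hC : Closed C) (N : A) (hN : Gen M N) :
    ∃ N₀ N₁ : A, C N₀ ∧ (∀ N', C N' → ∀ f : N' ⟶ N₁, f = 0) ∧ Nonempty (N ≅ N₀ ⊞ N₁) := by
  suffices H : ∀ n : ℕ, ∀ N : A, Gen M N → Module.finrank ℚ (HB.obj N) = n →
      ∃ N₀ N₁ : A, C N₀ ∧ (∀ N', C N' → ∀ f : N' ⟶ N₁, f = 0) ∧ Nonempty (N ≅ N₀ ⊞ N₁) from
    H _ N hN rfl
  intro n
  induction n using Nat.strong_induction_on with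
  | _ n ih =>
  intro N hN hn
  by_cases hf : ∀ N', C N' → ∀ f : N' ⟶ N, f = 0
  · obtain ⟨Z, hZ⟩ := hC.ne
    exact ⟨0, N, hC.quot (0 : Z ⟶ (0 : A)) hZ, hf, ⟨isoZeroBiprod (isZero_zero A)⟩⟩
  · push Not at hf
    obtain ⟨N', hN', f, hf0⟩ := hf
    let i : Abelian.image f ⟶ N := Abelian.image.ι f
    have hi0 : i ≠ 0 := by
      intro h
      apply hf0
      rw [← Abelian.image.fac f]
      show Abelian.factorThruImage f ≫ i = 0
      rw [h, comp_zero]
    have hI : C (Abelian.image f) := hC.quot (Abelian.factorThruImage f) hN'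
    have hCo : Gen M (cokernel i) := Gen.quot (cokernel.π i) hN
    have hlt : Module.finrank ℚ (HB.obj (cokernel i)) < n := by
      rw [← hn]
      exact ss_finrank HB hfin i hi0
    obtain ⟨C₀, C₁, hC₀, hC₁, ⟨φ⟩⟩ := ih _ hlt (cokernel i) hCo rfl
    obtain ⟨ψ⟩ := ss_iso hss hN i
    exact ⟨Abelian.image f ⊞ C₀, C₁, hC.sum hI hC₀, hC₁,
      ⟨ψ ≪≫ biprod.mapIso (Iso.refl _) φ ≪≫ (biprod.associator _ _ _).symm⟩⟩

theorem ss_splits (HB : A ⥤ ModuleCat.{0} ℚ) [FibreFunctor HB] {M M₀ : A}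
    (hss : SemisimpleGen M) : SplitsOver M M₀ := by
  intro N hN
  obtain ⟨N₀, N₁, h0, h1, ⟨φ⟩⟩ := ss_splitsAlong HB FibreFunctor.finite hss (Gen M₀)
    (a_genclosed.1 M₀).toClosed N hN
  have hN₁ : Gen M N₁ := by
    have : Mono (biprod.inr ≫ φ.inv : N₁ ⟶ N) := mono_comp _ _
    exact Gen.sub (biprod.inr ≫ φ.inv : N₁ ⟶ N) hN
  exact ⟨N₀, N₁, h0, ss_orth hss hN₁ h1, ⟨φ⟩⟩

end

end Pool.Agent.Lib.MP_ae0f86_nt
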