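import Pool.Agent.Lib.MP_ae0f86_nt.R.Semi

/-!
# MP_ae0f86_nt : the transcendence criterion, the category generated by the unit
-/

set_option autoImplicit false

universe w v u

open CategoryTheory CategoryTheory.Limits Opposite MonoidalCategory

open scoped ZeroObject TensorProduct

namespace Pool.Agent.Lib.MP_ae0f86_nt

noncomputable section

attribute [local instance] CategoryTheory.Abelian.hasFiniteBiproducts

variable {A : Type u} [Category.{v} A] [Abelian A] [MonoidalCategory A] [SymmetricCategory A]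

section Inv

variable (HB : A ⥤ ModuleCat.{0} ℚ) [FibreFunctor HB]

/-- All elements of `HB(N)` are invariant. -/
def rInv (N : A) : Prop :=
  ∀ b : HB.obj N, ∃ g : 𝟙_ A ⟶ N, (HB.map g).hom FibreFunctor.one = b

/-- All functionals on `HB(N)` are invariant. -/
def rCoinv (N : A) : Prop :=
  ∀ σ : Module.Dual ℚ (HB.obj N), ∃ φ : N ⟶ 𝟙_ A,
    ∀ x, (HB.map φ).hom x = σ x • (FibreFunctor.one : HB.obj (𝟙_ A))

theorem r_one_span (x : HB.obj (𝟙_ A)) :
    ∃ a : ℚ, x = a • (FibreFunctor.one : HB.obj (𝟙_ A)) := by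
  obtain ⟨a, ha⟩ := (FibreFunctor.one_bij (H := HB)).2 x
  exact ⟨a, ha.symm⟩

theorem r_one_ne : (FibreFunctor.one : HB.obj (𝟙_ A)) ≠ 0 := by
  intro h
  have h1 := (FibreFunctor.one_bij (H := HB)).1 (a₁ := 0) (a₂ := 1) (by simp [h])
  exact zero_ne_one h1

/-- A morphism from the unit is determined by its value at `one`. -/
theorem r_zero_of_one {N : A} (g : 𝟙_ A ⟶ N)
    (h : (HB.map g).hom (FibreFunctor.one : HB.obj (𝟙_ A)) = 0) : g = 0 := by
  apply HB.map_injective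
  rw [HB.map_zero]
  ext x
  obtain ⟨a, rfl⟩ := r_one_span HB x
  rw [map_smul, h, smul_zero]
  rfl

omit [MonoidalCategory A] [SymmetricCategory A] [FibreFunctor HB] in
theorem r_map_smul [Linear ℚ A] [HB.Additive] {M N : A} (q : ℚ) (f : M ⟶ N) :
    HB.map (q • f) = q • HB.map f := by
  have : HB.Linear ℚ := inferInstance
  exact HB.map_smul q f

theorem rInv_unit [Linear ℚ A] : rInv HB (𝟙_ A) := by
  intro b
  obtain ⟨a, rfl⟩ := r_one_span HB b
  refine ⟨a • 𝟙 _, ?_⟩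
  rw [r_map_smul, HB.map_id]
  rfl

theorem rCoinv_unit [Linear ℚ A] : rCoinv HB (𝟙_ A) := by
  intro σ
  refine ⟨σ FibreFunctor.one • 𝟙 _, fun x => ?_⟩
  obtain ⟨a, rfl⟩ := r_one_span HB x
  rw [r_map_smul, HB.map_id]
  show σ FibreFunctor.one • a • (FibreFunctor.one : HB.obj (𝟙_ A)) = _
  rw [map_smul, smul_smul, smul_eq_mul, mul_comm]

theorem rInv_add {N : A} {b b' : HB.obj N}
    (h : ∃ g : 𝟙_ A ⟶ N, (HB.map g).hom FibreFunctor.one = b)
    (h' : ∃ g : 𝟙_ A ⟶ N, (HB.map g).hom FibreFunctor.one = b') :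
    ∃ g : 𝟙_ A ⟶ N, (HB.map g).hom FibreFunctor.one = b + b' := by
  obtain ⟨g, rfl⟩ := h
  obtain ⟨g', rfl⟩ := h'
  exact ⟨g + g', by rw [HB.map_add]; rfl⟩

theorem rInv_map {N N' : A} (f : N ⟶ N') {b : HB.obj N}
    (h : ∃ g : 𝟙_ A ⟶ N, (HB.map g).hom FibreFunctor.one = b) :
    ∃ g : 𝟙_ A ⟶ N', (HB.map g).hom FibreFunctor.one = (HB.map f).hom b := by
  obtain ⟨g, rfl⟩ := h
  exact ⟨g ≫ f, p_dualbasis_comp HB g f _⟩

theorem rInv_sum {N N' : A} (h : rInv HB N) (h' : rInv HB N') : rInv HB (N ⊞ N') := by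
  intro b
  rw [← r_total HB b]
  exact rInv_add HB (rInv_map HB _ (h _)) (rInv_map HB _ (h' _))

theorem rInv_quot {N N' : A} (p : N ⟶ N') [Epi p] (h : rInv HB N) : rInv HB N' := by
  intro b
  have hps : Function.Surjective (HB.map p).hom := by
    have : Epi (HB.map p) := inferInstance
    exact (ModuleCat.epi_iff_surjective _).1 this
  obtain ⟨b', rfl⟩ := hps b
  exact rInv_map HB p (h b')

theorem rInv_sub {N N' : A} (i : N' ⟶ N) [Mono i] (h : rInv HB N) : rInv HB N' := by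
  intro b'
  obtain ⟨g, hg⟩ := h ((HB.map i).hom b')
  have h1 : g ≫ cokernel.π i = 0 := by
    apply r_zero_of_one HB
    rw [p_dualbasis_comp, hg, ← p_dualbasis_comp, cokernel.condition, HB.map_zero]
    rfl
  let g' : 𝟙_ A ⟶ N' := Abelian.monoLift i g h1
  have h2 : g' ≫ i = g := Abelian.monoLift_comp i g h1
  refine ⟨g', ?_⟩
  have his : Function.Injective (HB.map i).hom := by
    have : Mono (HB.map i) := inferInstance
    exact (ModuleCat.mono_iff_injective _).1 this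
  apply his
  rw [← p_dualbasis_comp, h2, hg]

theorem rCoinv_sub {N N' : A} (i : N' ⟶ N) [Mono i] (h : rCoinv HB N) : rCoinv HB N' := by
  intro σ
  have his : Function.Injective (HB.map i).hom := by
    have : Mono (HB.map i) := inferInstance
    exact (ModuleCat.mono_iff_injective _).1 this
  obtain ⟨s, hs⟩ := LinearMap.exists_leftInverse_of_injective (HB.map i).hom
    (LinearMap.ker_eq_bot.2 his)
  obtain ⟨φ, hφ⟩ := h (σ ∘ₗ s)
  refine ⟨i ≫ φ, fun x => ?_⟩
  rw [p_dualbasis_comp, hφ, LinearMap.comp_apply]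
  have h1 : s ((HB.map i).hom x) = x := by
    have := congrArg (fun f => f x) hs
    exact this
  rw [h1]

theorem rCoinv_quot {N N' : A} (p : N ⟶ N') [Epi p] (h : rCoinv HB N) : rCoinv HB N' := by
  intro σ
  obtain ⟨φ, hφ⟩ := h (σ ∘ₗ (HB.map p).hom)
  have h1 : kernel.ι p ≫ φ = 0 := by
    apply HB.map_injective
    rw [HB.map_zero]
    ext x
    rw [p_dualbasis_comp, hφ, LinearMap.comp_apply, ← p_dualbasis_comp, kernel.condition,
      HB.map_zero]
    show σ 0 • _ = _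
    rw [map_zero, zero_smul]
    rfl
  let φ' : N' ⟶ 𝟙_ A := Abelian.epiDesc p φ h1
  have h2 : p ≫ φ' = φ := Abelian.comp_epiDesc p φ h1
  refine ⟨φ', fun x => ?_⟩
  have hps : Function.Surjective (HB.map p).hom := by
    have : Epi (HB.map p) := inferInstance
    exact (ModuleCat.epi_iff_surjective _).1 this
  obtain ⟨y, rfl⟩ := hps x
  rw [← p_dualbasis_comp, h2, hφ]
  rfl

theorem rCoinv_sum {N N' : A} (h : rCoinv HB N) (h' : rCoinv HB N') : rCoinv HB (N ⊞ N') := by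
  intro σ
  obtain ⟨φ, hφ⟩ := h (σ ∘ₗ (HB.map biprod.inl).hom)
  obtain ⟨φ', hφ'⟩ := h' (σ ∘ₗ (HB.map biprod.inr).hom)
  refine ⟨biprod.fst ≫ φ + biprod.snd ≫ φ', fun x => ?_⟩
  rw [HB.map_add]
  show (HB.map (biprod.fst ≫ φ)).hom x + (HB.map (biprod.snd ≫ φ')).hom x = _
  rw [p_dualbasis_comp, p_dualbasis_comp, hφ, hφ', ← add_smul]
  conv_rhs => rw [← r_total HB x]
  rw [map_add]
  rfl

theorem rInv_tensor {N N' : A} (h : rInv HB N) (h' : rInv HB N') : rInv HB (N ⊗ N') := by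
  intro b
  obtain ⟨t, rfl⟩ := (FibreFunctor.bij (H := HB) N N').2 b
  induction t using TensorProduct.induction_on with
  | zero => exact ⟨0, by rw [HB.map_zero, map_zero]; rfl⟩
  | add x y hx hy =>
    rw [map_add]
    exact rInv_add HB hx hy
  | tmul x y =>
    obtain ⟨g, rfl⟩ := h x
    obtain ⟨g', rfl⟩ := h' y
    refine ⟨(λ_ (𝟙_ A)).inv ≫ (g ⊗ₘ g'), ?_⟩
    rw [TensorProduct.lift.tmul, p_dualbasis_comp]
    have h1 : (HB.map (λ_ (𝟙_ A)).inv).hom (FibreFunctor.one : HB.obj (𝟙_ A)) =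
        FibreFunctor.mul (𝟙_ A) (𝟙_ A) FibreFunctor.one FibreFunctor.one := by
      conv_lhs => rw [← FibreFunctor.one_mul (FibreFunctor.one : HB.obj (𝟙_ A))]
      rw [p_dualbasis_inv]
    rw [h1, FibreFunctor.mul_nat]

theorem rCoinv_tensor {N N' : A} (h : rCoinv HB N) (h' : rCoinv HB N') :
    rCoinv HB (N ⊗ N') := by
  intro σ
  -- additive closure, for functionals on the tensor product
  have key : ∀ ρ : Module.Dual ℚ (HB.obj N) ⊗[ℚ] Module.Dual ℚ (HB.obj N'),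
      ∃ φ : N ⊗ N' ⟶ 𝟙_ A, ∀ x y, (HB.map φ).hom (FibreFunctor.mul N N' x y) =
        TensorProduct.dualDistrib ℚ (HB.obj N) (HB.obj N') ρ (x ⊗ₜ y) •
          (FibreFunctor.one : HB.obj (𝟙_ A)) := by
    intro ρ
    induction ρ using TensorProduct.induction_on with
    | zero => exact ⟨0, fun x y => by rw [HB.map_zero, map_zero]; simp⟩
    | add x y hx hy =>
      obtain ⟨φ, hφ⟩ := hx
      obtain ⟨φ', hφ'⟩ := hy
      refine ⟨φ + φ', fun a b => ?_⟩
      rw [HB.map_add, map_add, LinearMap.add_apply, add_smul, ← hφ, ← hφ']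
      rfl
    | tmul α β =>
      obtain ⟨φ, hφ⟩ := h α
      obtain ⟨φ', hφ'⟩ := h' β
      refine ⟨(φ ⊗ₘ φ') ≫ (λ_ (𝟙_ A)).hom, fun a b => ?_⟩
      rw [p_dualbasis_comp, FibreFunctor.mul_nat, hφ, hφ', map_smul, map_smul, map_smul,
        LinearMap.smul_apply, map_smul, FibreFunctor.one_mul, smul_smul,
        TensorProduct.dualDistrib_apply, mul_comm]
  have hfin : Module.Finite ℚ (HB.obj N) := FibreFunctor.finite N
  have hfin' : Module.Finite ℚ (HB.obj N') := FibreFunctor.finite N'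
  obtain ⟨ρ, hρ⟩ := (TensorProduct.dualDistribEquiv ℚ (HB.obj N) (HB.obj N')).surjective
    (σ ∘ₗ TensorProduct.lift (FibreFunctor.mul N N'))
  obtain ⟨φ, hφ⟩ := key ρ
  refine ⟨φ, fun x => ?_⟩
  obtain ⟨t, rfl⟩ := (FibreFunctor.bij (H := HB) N N').2 x
  induction t using TensorProduct.induction_on with
  | zero => simp
  | add x y hx hy =>
    rw [map_add, map_add, hx, hy, map_add, add_smul]
  | tmul x y =>
    rw [TensorProduct.lift.tmul, hφ]
    have h1 := congrArg (fun f => f (x ⊗ₜ y)) hρ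
    simp only [LinearMap.comp_apply, TensorProduct.lift.tmul] at h1
    rw [← h1]
    rfl

variable [RigidCategory A]

theorem rInv_dual {N : A} (h : rCoinv HB N) : rInv HB (Nᘁ) := by
  classical
  intro y
  have hfin : Module.Finite ℚ (HB.obj N) := FibreFunctor.finite N
  let b := Module.finBasis ℚ (HB.obj N)
  obtain ⟨b', -, hb⟩ := p_dualbasis HB N b
  obtain ⟨φ, hφ⟩ := h (epair HB N y)
  refine ⟨η_ N (Nᘁ) ≫ (φ ▷ Nᘁ) ≫ (λ_ (Nᘁ)).hom, ?_⟩
  rw [p_dualbasis_comp, p_dualbasis_comp, hb, map_sum, map_sum]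
  have h1 := p_dualbasis_z2 HB N b b' hb y
  rw [← h1]
  refine Finset.sum_congr rfl fun i _ => ?_
  rw [p_dualbasis_wR, hφ, map_smul, LinearMap.smul_apply, map_smul, FibreFunctor.one_mul]

theorem rCoinv_dual {N : A} (h : rInv HB N) : rCoinv HB (Nᘁ) := by
  classical
  intro τ
  have hfin : Module.Finite ℚ (HB.obj N) := FibreFunctor.finite N
  let b := Module.finBasis ℚ (HB.obj N)
  obtain ⟨b', -, hb⟩ := p_dualbasis HB N b
  obtain ⟨g, hg⟩ := h (∑ i, τ (b' i) • b i)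
  refine ⟨(λ_ (Nᘁ)).inv ≫ (g ▷ Nᘁ) ≫ (β_ N (Nᘁ)).hom ≫ ε_ N (Nᘁ), fun y => ?_⟩
  rw [p_dualbasis_comp, p_dualbasis_comp, p_dualbasis_comp]
  have h1 : (HB.map (λ_ (Nᘁ)).inv).hom y =
      FibreFunctor.mul (𝟙_ A) (Nᘁ) FibreFunctor.one y := by
    conv_lhs => rw [← FibreFunctor.one_mul y]
    rw [p_dualbasis_inv]
  rw [h1, p_dualbasis_wR, hg, FibreFunctor.mul_comm, p_dualbasis_eps]
  congr 1
  have h2 := p_dualbasis_z2 HB N b b' hb y
  conv_rhs => rw [← h2]
  rw [map_sum, map_sum]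
  refine Finset.sum_congr rfl fun i _ => ?_
  rw [map_smul, map_smul, smul_eq_mul, smul_eq_mul, mul_comm]

/-- The objects of `⟨1⟩` are trivial. -/
theorem r_gen_unit [Linear ℚ A] {N : A} (hN : Gen (𝟙_ A) N) : rInv HB N ∧ rCoinv HB N := by
  induction hN with
  | base => exact ⟨rInv_unit HB, rCoinv_unit HB⟩
  | unit => exact ⟨rInv_unit HB, rCoinv_unit HB⟩
  | sum _ _ h h' => exact ⟨rInv_sum HB h.1 h'.1, rCoinv_sum HB h.2 h'.2⟩
  | tensor _ _ h h' => exact ⟨rInv_tensor HB h.1 h'.1, rCoinv_tensor HB h.2 h'.2⟩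
  | dual _ h => exact ⟨rInv_dual HB h.2, rCoinv_dual HB h.1⟩
  | sub i _ h => exact ⟨rInv_sub HB i h.1, rCoinv_sub HB i h.2⟩
  | quot p _ h => exact ⟨rInv_quot HB p h.1, rCoinv_quot HB p h.2⟩

include HB in
/-- In the semisimple case, an object without nonzero morphisms from the unit is orthogonal to
`⟨1⟩`. -/
theorem r_orth_unit [Linear ℚ A] {M W : A} (hss : SemisimpleGen M) (hW : Gen M W)
    (h : ∀ f : 𝟙_ A ⟶ W, f = 0) : Orthogonal (𝟙_ A) W := by
  refine ss_orth hss hW fun N hN f => ?_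
  apply HB.map_injective
  rw [HB.map_zero]
  ext b
  obtain ⟨g, rfl⟩ := (r_gen_unit HB hN).1 b
  rw [← p_dualbasis_comp, h (g ≫ f), HB.map_zero]
  rfl

end Inv

end

end Pool.Agent.Lib.MP_ae0f86_nt
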